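import Pool.Agent.H78.C7.Rel

set_option autoImplicit false
set_option linter.unusedSectionVars false
set_option linter.unusedVariables false
set_option linter.unusedSimpArgs false
set_option maxHeartbeats 1000000

/-!
# JD: class 7, three generators, curvilinear, case II: conclusion
-/

namespace JD
namespace L2

universe u

open Module

variable {F : Type u} [Field F] {J : Type u} [NonUnitalNonAssocCommRing J] [Module F J]
  [IsScalarTower F J J] [SMulCommClass F J J]

theorem Cg_mul_of {x m : J} {k : ℕ} {T : Submodule F J} (h : ∀ i, k ≤ i → xp x i * m ∈ T) :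
    ∀ s ∈ Cg F x k, s * m ∈ T := by
  intro s hs
  have hle : Cg F x k ≤ T.comap (LinearMap.mulRight F m) := by
    refine Cg_le x fun i hi => ?_
    rw [Submodule.mem_comap, LinearMap.mulRight_apply]
    exact h i hi
  exact hle hs

namespace Tb

variable {x : J} {φ : J →ₗ[F] F} {M : Submodule F J} (t : Tb F x φ M)
include t

theorem xkv {k : ℕ} (hk : 5 ≤ k) (v : J) (hv : v ∈ M) : xp x k * v = 0 := by
  rcases (by omega : k = 5 ∨ k = 6 ∨ k = 7 ∨ 8 ≤ k) with rfl | rfl | rfl | h8
  · exact t.x5v v hv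
  · exact t.x6v v hv
  · exact t.x7v v hv
  · rw [t.cv.xp_zero' (by omega), zero_mul]

/-- one of `al`, `B` is nonzero -/
theorem n1 (hal : ∀ v ∈ M, t.al v = 0) (hB : ∀ v ∈ M, ∀ v' ∈ M, t.B v v' = 0) : False := by
  have two := t.cv.two
  have hC : ∀ {a b : F}, a • t.w' + b • t.w' ∈ Cg F x 1 ⊔ Submodule.span F {t.w'} := by
    intro a b
    exact Submodule.mem_sup_right (add_mem
      (Submodule.smul_mem _ _ (Submodule.mem_span_singleton_self _))
      (Submodule.smul_mem _ _ (Submodule.mem_span_singleton_self _)))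
  set T := Cg F x 1 ⊔ Submodule.span F {t.w'} with hT
  have hw' : ∀ a : F, a • t.w' ∈ T := fun a =>
    Submodule.smul_mem _ _ (Submodule.mem_sup_right (Submodule.mem_span_singleton_self _))
  have hx : ∀ (a : F) (i : ℕ), 1 ≤ i → a • xp x i ∈ T := fun a i hi =>
    Submodule.smul_mem _ _ (Submodule.mem_sup_left (xp_mem_Cg x hi))
  have hxm : ∀ i, 1 ≤ i → ∀ m ∈ M, xp x i * m ∈ T := by
    intro i hi m hm
    rcases (by omega : i = 1 ∨ i = 2 ∨ i = 3 ∨ i = 4 ∨ 5 ≤ i) with rfl | rfl | rfl | rfl | h5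
    · rw [xp_one, t.xv m hm, hal m hm, zero_smul, zero_add]
      exact hw' _
    · rw [xp_two, t.bv m hm]
      exact add_mem (add_mem (add_mem (hw' _) (hx _ _ (by omega))) (hx _ _ (by omega)))
        (hx _ _ (by omega))
    · rw [t.x3v m hm]
      exact add_mem (hx _ _ (by omega)) (hx _ _ (by omega))
    · rw [t.x4v m hm]
      exact hx _ _ (by omega)
    · rw [t.xkv h5 m hm]
      exact zero_mem _
  have hle : jpow F J 2 ≤ T := by
    refine jpow_le_of le_rfl _ fun i j hi hj hij a ha b hb => ?_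
    obtain ⟨s, hs, m, hm, -, rfl⟩ := t.cv.dec (k := 1) le_rfl (mem_one a)
    obtain ⟨s', hs', m', hm', -, rfl⟩ := t.cv.dec (k := 1) le_rfl (mem_one b)
    have e1 : s * s' ∈ T := Submodule.mem_sup_left
      (t.cv.Cg_mul_Cg (k := 1) (by omega) le_rfl le_rfl hs hs')
    have e2 : s * m' ∈ T := Cg_mul_of (fun i hi => hxm i hi m' hm') s hs
    have e3 : m * s' ∈ T := by
      rw [mul_comm]
      exact Cg_mul_of (fun i hi => hxm i hi m hm) s' hs'
    have e4 : m * m' ∈ T := by
      rw [t.vv m hm m' hm', hB m hm m' hm', zero_smul, zero_add]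
      exact add_mem (add_mem (add_mem (add_mem (add_mem (hw' _) (hx _ _ (by omega)))
        (hx _ _ (by omega))) (hx _ _ (by omega))) (hx _ _ (by omega))) (hx _ _ (by omega))
    rw [mul_add, add_mul, add_mul]
    exact add_mem (add_mem e1 e3) (add_mem e2 e4)
  obtain ⟨s, hs, q, hq, he⟩ := Submodule.mem_sup.mp (hle t.hw2)
  obtain ⟨r, rfl⟩ := Submodule.mem_span_singleton.mp hq
  have h1 : s ∈ M := by
    have : s = t.w - r • t.w' := by rw [← he]; abel
    rw [this]
    exact sub_mem t.hw (Submodule.smul_mem _ _ t.hw')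
  rw [t.cv.inter hs h1, zero_add] at he
  apply t.hwn
  rw [← he]
  exact Submodule.smul_mem _ _ t.hw3

/-- one of `a0`, `de`, `ga` is nonzero -/
theorem n2 (ha : t.a0 = 0) (hde : ∀ v ∈ M, t.de v = 0) (hga : ∀ v ∈ M, t.ga v = 0) : False := by
  have hx : ∀ (a : F) (i : ℕ), 1 ≤ i → a • xp x i ∈ Cg F x 1 := fun a i hi =>
    Submodule.smul_mem _ _ (xp_mem_Cg x hi)
  have hxm : ∀ i, 2 ≤ i → ∀ m ∈ M, xp x i * m ∈ Cg F x 1 := by
    intro i hi m hm
    rcases (by omega : i = 2 ∨ i = 3 ∨ i = 4 ∨ 5 ≤ i) with rfl | rfl | rfl | h5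
    · rw [xp_two, t.bv m hm, hde m hm, zero_smul, zero_add]
      exact add_mem (add_mem (hx _ _ (by omega)) (hx _ _ (by omega))) (hx _ _ (by omega))
    · rw [t.x3v m hm]
      exact add_mem (hx _ _ (by omega)) (hx _ _ (by omega))
    · rw [t.x4v m hm]
      exact hx _ _ (by omega)
    · rw [t.xkv h5 m hm]
      exact zero_mem _
  have hxm2 : ∀ i, 1 ≤ i → ∀ m ∈ M, m ∈ jpow F J 2 → xp x i * m ∈ Cg F x 1 := by
    intro i hi m hm hm2
    rcases Nat.eq_or_lt_of_le hi with rfl | hlt
    · obtain ⟨a, b, rfl⟩ := t.ex2 m hm hm2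
      rw [xp_one, mul_add, mul_smul_comm, mul_smul_comm, t.xw, t.xw', ha, zero_smul, smul_zero,
        smul_zero, add_zero]
      exact zero_mem _
    · exact hxm i hlt m hm
  have key : ∀ a : J, ∀ b ∈ jpow F J 2, a * b ∈ Cg F x 1 := by
    intro a b hb
    obtain ⟨s, hs, m, hm, -, rfl⟩ := t.cv.dec (k := 1) le_rfl (mem_one a)
    obtain ⟨s', hs', m', hm', hm2, rfl⟩ := t.cv.dec (k := 2) (by omega) hb
    have e1 : s * s' ∈ Cg F x 1 := t.cv.Cg_mul_Cg (k := 1) (i := 1) (j := 2) (by omega) le_rfl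
      (by omega) hs hs'
    have e2 : s * m' ∈ Cg F x 1 := Cg_mul_of (fun i hi => hxm2 i hi m' hm' hm2) s hs
    have e3 : m * s' ∈ Cg F x 1 := by
      rw [mul_comm]
      exact Cg_mul_of (fun i hi => hxm i hi m hm) s' hs'
    have e4 : m * m' ∈ Cg F x 1 := by
      obtain ⟨a, b, rfl⟩ := t.ex2 m' hm' hm2
      rw [mul_add, mul_smul_comm, mul_smul_comm, t.vw m hm, t.vw' m hm, hga m hm, zero_smul,
        zero_add]
      exact add_mem (Submodule.smul_mem _ _ (add_mem (add_mem (add_mem (hx _ _ (by omega))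
        (hx _ _ (by omega))) (hx _ _ (by omega))) (hx _ _ (by omega))))
        (Submodule.smul_mem _ _ (add_mem (add_mem (hx _ _ (by omega)) (hx _ _ (by omega)))
          (hx _ _ (by omega))))
    rw [mul_add, add_mul, add_mul]
    exact add_mem (add_mem e1 e3) (add_mem e2 e4)
  have hle : jpow F J 3 ≤ Cg F x 1 := by
    refine jpow_le_of (by omega) _ fun i j hi hj hij a ha b hb => ?_
    rcases (by omega : i = 1 ∧ j = 2 ∨ i = 2 ∧ j = 1) with ⟨rfl, rfl⟩ | ⟨rfl, rfl⟩
    · exact key a b hb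
    · rw [mul_comm]
      exact key b a ha
  exact t.hw'0 (t.cv.inter (hle t.hw3) t.hw')

theorem pol {r : F} (hr : ∀ v ∈ M, t.B v v * r = 0) :
    ∀ v ∈ M, ∀ v' ∈ M, t.B v v' * r = 0 := by
  intro v hv v' hv'
  have h1 := hr v hv
  have h2 := hr v' hv'
  have h3 := hr (v + v') (add_mem hv hv')
  simp only [map_add, LinearMap.add_apply] at h3
  rw [t.Bsym v' v] at h3
  have h4 : (2 : F) * (t.B v v' * r) = 0 := by linear_combination h3 - h1 - h2
  exact (mul_eq_zero.mp h4).resolve_left t.cv.two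

/-- `r = 0` if `al r = 0` and `B r = 0` -/
theorem zero_of {r : F} (h1 : ∀ v ∈ M, t.al v * r = 0) (h2 : ∀ v ∈ M, t.B v v * r = 0) :
    r = 0 := by
  by_contra hr
  refine t.n1 (fun v hv => (mul_eq_zero.mp (h1 v hv)).resolve_right hr) fun v hv v' hv' =>
    (mul_eq_zero.mp (t.pol h2 v hv v' hv')).resolve_right hr

theorem e0 : t.e = 0 := by
  have two := t.cv.two
  by_contra he
  have hB : ∀ v ∈ M, ∀ v' ∈ M, t.B v v' = 0 := fun v hv v' hv' =>
    (mul_eq_zero.mp (t.pol (fun v hv => t.r10 v hv) v hv v' hv')).resolve_right he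
  refine t.n1 (fun v hv => ?_) hB
  by_contra hal
  have r1 := t.r1
  have r2 := t.r2 v hv
  have r3 := t.r3 v hv
  have r4 := t.r4 v hv
  have r6 := t.r6 v hv
  have r8 := t.r8 v hv
  have hne : t.l5 v ≠ 0 := by
    rw [r2]
    exact mul_ne_zero (mul_ne_zero two hal) he
  have hf : t.f ≠ 0 := by
    intro hf
    rw [hf, mul_zero] at r3
    exact hne r3
  have h1 : (2 * 2 * t.al v ^ 2 * t.f) * t.a0 ^ 2 = 0 := by
    linear_combination -r8 + 2 * t.al v ^ 2 * r1 - 2 * (t.al v * t.a0) * r2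
  have ha : t.a0 = 0 := by
    rcases mul_eq_zero.mp h1 with h | h
    · exact absurd h (mul_ne_zero (mul_ne_zero (mul_ne_zero two two) (pow_ne_zero _ hal)) hf)
    · exact pow_eq_zero_iff (by norm_num) |>.mp h
  rw [ha] at r1 r4 r6
  have hde : t.de v * t.e = 0 := by
    linear_combination r4 - r6 + 2 * t.al v * r1
  have hde' := (mul_eq_zero.mp hde).resolve_right he
  rw [hde', zero_mul] at r3
  exact hne r3

theorem f0 : t.f = 0 := by
  have two := t.cv.two
  have he := t.e0
  by_contra hf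
  have hga : ∀ v ∈ M, t.ga v = 0 := by
    intro v hv
    have := t.r9 v hv
    rcases mul_eq_zero.mp this with h | h
    · exact absurd h two
    · rcases mul_eq_zero.mp h with h | h
      · exact pow_eq_zero_iff (by norm_num) |>.mp h
      · exact absurd h hf
  have hl5 : ∀ v ∈ M, t.l5 v = 0 := by
    intro v hv
    rw [t.r2 v hv, he, mul_zero]
  have hde : ∀ v ∈ M, t.de v = 0 := by
    intro v hv
    have := t.r3 v hv
    rw [hl5 v hv] at this
    exact (mul_eq_zero.mp this.symm).resolve_right hf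
  have ha : t.a0 ≠ 0 := fun ha => t.n2 ha hde hga
  have ho : t.o5 ≠ 0 := by
    rw [t.r1, he, mul_zero, zero_sub, neg_ne_zero]
    exact mul_ne_zero (mul_ne_zero two (pow_ne_zero _ ha)) hf
  refine t.n1 (fun v hv => ?_) ?_
  · have r8 := t.r8 v hv
    rw [hl5 v hv, mul_zero, mul_zero] at r8
    rcases mul_eq_zero.mp r8 with h | h
    · exact absurd h two
    · rcases mul_eq_zero.mp h with h | h
      · exact pow_eq_zero_iff (by norm_num) |>.mp h
      · exact absurd h ho
  · have h1 : ∀ v ∈ M, t.B v v * t.o5 = 0 := by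
      intro v hv
      have := t.r11 v hv
      rw [he] at this
      linear_combination -this
    exact fun v hv v' hv' => (mul_eq_zero.mp (t.pol h1 v hv v' hv')).resolve_right ho

theorem o50 : t.o5 = 0 := by
  rw [t.r1, t.e0, t.f0]
  ring

theorem l50 (v : J) (hv : v ∈ M) : t.l5 v = 0 := by
  rw [t.r2 v hv, t.e0, mul_zero]

theorem k40 (v : J) (hv : v ∈ M) : t.k4 v = 0 := by
  rw [t.r4 v hv, t.e0, t.o50]
  ring

theorem s30 (v : J) (hv : v ∈ M) (v' : J) (hv' : v' ∈ M) : t.s3 v v' = 0 := by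
  have := t.r12 v hv v' hv'
  rw [t.l50 v hv, t.k40 v' hv', t.o50] at this
  linear_combination this

-- membership in the filtration
section
variable {p q r u s : ℕ}

theorem mx (a : F) (i : ℕ) (hi : s ≤ p * i) : a • xp x i ∈ Wf F x M p q r u s :=
  Submodule.smul_mem _ _ (Wf_xp i hi)

theorem mw (a : F) (hi : s ≤ r) : a • t.w ∈ Wf F x M p q r u s :=
  Submodule.smul_mem _ _ (Wf_M2 hi t.hw t.hw2)

theorem mw' (a : F) (hi : s ≤ r) : a • t.w' ∈ Wf F x M p q r u s :=
  Submodule.smul_mem _ _ (Wf_M2 hi t.hw' (jpow_anti (by omega) t.hw3))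

theorem mw3 (a : F) (hi : s ≤ u) : a • t.w' ∈ Wf F x M p q r u s :=
  Submodule.smul_mem _ _ (Wf_M3 hi t.hw' t.hw3)

end

/-- weights 1, 2, 3, 4 -/
theorem finA {e : J} (hcr : Crit F J 7 e) (hn : ngen F J = 3)
    (hga : ∀ v ∈ M, t.ga v = 0) (hB : ∀ v ∈ M, ∀ v' ∈ M, t.B v v' = 0) : False := by
  have hfin := hcr.fin
  obtain ⟨y, hy, z, hz, hyz, -, hspan⟩ := t.cv.exists_yz hn
  refine t.cv.fin_end hcr hy hz hyz hspan (p := 1) (q := 2) (r := 3) (t := 4) (by omega) (by omega)
    (by omega) (by omega) (by omega) (by omega) (by omega) (by omega) ?_ ?_ ?_ ?_ ?_ ?_ ?_ ?_ ?_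
  · intro k hk m hm
    rcases (by omega : k = 1 ∨ k = 2 ∨ k = 3 ∨ k = 4 ∨ 5 ≤ k) with rfl | rfl | rfl | rfl | h5
    · rw [xp_one, t.xv m hm]
      exact add_mem (t.mw _ (by omega)) (t.mw' _ (by omega))
    · rw [xp_two, t.bv m hm]
      exact add_mem (add_mem (add_mem (t.mw3 _ (by omega)) (t.mx _ _ (by omega)))
        (t.mx _ _ (by omega))) (t.mx _ _ (by omega))
    · rw [t.x3v m hm]
      exact add_mem (t.mx _ _ (by omega)) (t.mx _ _ (by omega))
    · rw [t.x4v m hm]
      exact t.mx _ _ (by omega)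
    · rw [t.xkv h5 m hm]
      exact zero_mem _
  · intro k hk m hm hm2
    obtain ⟨a, b, rfl⟩ := t.ex2 m hm hm2
    rcases (by omega : k = 1 ∨ k = 2 ∨ k = 3 ∨ k = 4 ∨ 5 ≤ k) with rfl | rfl | rfl | rfl | h5
    · rw [xp_one, mul_add, mul_smul_comm, mul_smul_comm, t.xw, t.xw', smul_zero, add_zero,
        smul_smul]
      exact t.mw3 _ (by omega)
    · rw [xp_two, mul_add, mul_smul_comm, mul_smul_comm, t.bw, t.bw', smul_add, smul_smul,
        smul_smul, smul_smul]
      exact add_mem (add_mem (t.mx _ _ (by omega)) (t.mx _ _ (by omega))) (t.mx _ _ (by omega))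
    · rw [mul_add, mul_smul_comm, mul_smul_comm, t.x3w, t.x3w', smul_zero, add_zero, smul_smul]
      exact t.mx _ _ (by omega)
    · rw [mul_add, mul_smul_comm, mul_smul_comm, t.x4w, t.x4w', smul_zero, smul_zero, add_zero]
      exact zero_mem _
    · rw [t.xkv h5 _ hm]
      exact zero_mem _
  · intro k hk m hm hm3
    obtain ⟨b, rfl⟩ := t.ex3 m hm hm3
    rcases (by omega : k = 1 ∨ k = 2 ∨ k = 3 ∨ k = 4 ∨ 5 ≤ k) with rfl | rfl | rfl | rfl | h5
    · rw [xp_one, mul_smul_comm, t.xw', smul_zero]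
      exact zero_mem _
    · rw [xp_two, mul_smul_comm, t.bw', smul_smul]
      exact t.mx _ _ (by omega)
    · rw [mul_smul_comm, t.x3w', smul_zero]
      exact zero_mem _
    · rw [mul_smul_comm, t.x4w', smul_zero]
      exact zero_mem _
    · rw [t.xkv h5 _ hm]
      exact zero_mem _
  · intro m hm n hn
    rw [t.vv m hm n hn, hB m hm n hn, t.s30 m hm n hn, zero_smul, zero_smul, zero_add, add_zero]
    exact add_mem (add_mem (add_mem (add_mem (t.mw3 _ (by omega)) (t.mx _ _ (by omega)))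
      (t.mx _ _ (by omega))) (t.mx _ _ (by omega))) (t.mx _ _ (by omega))
  · intro m hm n hn hn2
    obtain ⟨a, b, rfl⟩ := t.ex2 n hn hn2
    rw [mul_add, mul_smul_comm, mul_smul_comm, t.vw m hm, t.vw' m hm, hga m hm, t.k40 m hm,
      t.l50 m hm]
    simp only [zero_smul, zero_add]
    exact add_mem (Submodule.smul_mem _ _ (add_mem (add_mem (t.mx _ _ (by omega))
      (t.mx _ _ (by omega))) (t.mx _ _ (by omega)))) (Submodule.smul_mem _ _
      (add_mem (t.mx _ _ (by omega)) (t.mx _ _ (by omega))))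
  · intro m hm n hn hn3
    obtain ⟨b, rfl⟩ := t.ex3 n hn hn3
    rw [mul_smul_comm, t.vw' m hm, t.l50 m hm, zero_smul, zero_add]
    exact Submodule.smul_mem _ _ (add_mem (t.mx _ _ (by omega)) (t.mx _ _ (by omega)))
  · intro m hm hm2 n hn hn2
    obtain ⟨a, b, rfl⟩ := t.ex2 n hn hn2
    obtain ⟨a', b', rfl⟩ := t.ex2 m hm hm2
    simp only [mul_add, add_mul, smul_mul_assoc, mul_smul_comm, t.ww, t.ww', t.w'w, t.w'w', t.e0,
      t.f0, t.o50, zero_smul, zero_add, smul_zero, add_zero]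
    exact add_mem (Submodule.smul_mem _ _ (add_mem (Submodule.smul_mem _ _
      (add_mem (t.mx _ _ (by omega)) (t.mx _ _ (by omega))))
      (Submodule.smul_mem _ _ (t.mx _ _ (by omega))))) (Submodule.smul_mem _ _
      (Submodule.smul_mem _ _ (t.mx _ _ (by omega))))
  · intro m hm hm2 n hn hn3
    obtain ⟨b, rfl⟩ := t.ex3 n hn hn3
    obtain ⟨a', b', rfl⟩ := t.ex2 m hm hm2
    simp only [mul_add, add_mul, smul_mul_assoc, mul_smul_comm, t.ww, t.ww', t.w'w, t.w'w', t.e0,
      t.f0, t.o50, zero_smul, zero_add, smul_zero, add_zero]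
    exact (Submodule.smul_mem _ _ (Submodule.smul_mem _ _ (t.mx _ _ (by omega))))
  · intro m hm hm3 n hn hn3
    obtain ⟨b, rfl⟩ := t.ex3 n hn hn3
    obtain ⟨b', rfl⟩ := t.ex3 m hm hm3
    simp only [smul_mul_assoc, mul_smul_comm, t.w'w', t.f0, zero_smul, smul_zero]
    exact zero_mem _

/-- weights 4, 7, 14, 21 -/
theorem finB {e : J} (hcr : Crit F J 7 e) (hn : ngen F J = 3) (hc : t.c = 0) (ho : t.o6 = 0)
    (hg : t.g = 0) (hk5 : ∀ v ∈ M, t.k5 v = 0) (hl6 : ∀ v ∈ M, t.l6 v = 0) : False := by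
  have hfin := hcr.fin
  obtain ⟨y, hy, z, hz, hyz, -, hspan⟩ := t.cv.exists_yz hn
  refine t.cv.fin_end hcr hy hz hyz hspan (p := 4) (q := 7) (r := 14) (t := 21) (by omega)
    (by omega) (by omega) (by omega) (by omega) (by omega) (by omega) (by omega) ?_ ?_ ?_ ?_ ?_ ?_
    ?_ ?_ ?_
  · intro k hk m hm
    rcases (by omega : k = 1 ∨ k = 2 ∨ k = 3 ∨ k = 4 ∨ 5 ≤ k) with rfl | rfl | rfl | rfl | h5
    · rw [xp_one, t.xv m hm]
      exact add_mem (t.mw _ (by omega)) (t.mw' _ (by omega))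
    · rw [xp_two, t.bv m hm]
      exact add_mem (add_mem (add_mem (t.mw3 _ (by omega)) (t.mx _ _ (by omega)))
        (t.mx _ _ (by omega))) (t.mx _ _ (by omega))
    · rw [t.x3v m hm]
      exact add_mem (t.mx _ _ (by omega)) (t.mx _ _ (by omega))
    · rw [t.x4v m hm]
      exact t.mx _ _ (by omega)
    · rw [t.xkv h5 m hm]
      exact zero_mem _
  · intro k hk m hm hm2
    obtain ⟨a, b, rfl⟩ := t.ex2 m hm hm2
    rcases (by omega : k = 1 ∨ k = 2 ∨ k = 3 ∨ k = 4 ∨ 5 ≤ k) with rfl | rfl | rfl | rfl | h5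
    · rw [xp_one, mul_add, mul_smul_comm, mul_smul_comm, t.xw, t.xw', smul_zero, add_zero,
        smul_smul]
      exact t.mw3 _ (by omega)
    · rw [xp_two, mul_add, mul_smul_comm, mul_smul_comm, t.bw, t.bw', smul_add, smul_smul,
        smul_smul, smul_smul]
      exact add_mem (add_mem (t.mx _ _ (by omega)) (t.mx _ _ (by omega))) (t.mx _ _ (by omega))
    · rw [mul_add, mul_smul_comm, mul_smul_comm, t.x3w, t.x3w', smul_zero, add_zero, smul_smul]
      exact t.mx _ _ (by omega)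
    · rw [mul_add, mul_smul_comm, mul_smul_comm, t.x4w, t.x4w', smul_zero, smul_zero, add_zero]
      exact zero_mem _
    · rw [t.xkv h5 _ hm]
      exact zero_mem _
  · intro k hk m hm hm3
    obtain ⟨b, rfl⟩ := t.ex3 m hm hm3
    rcases (by omega : k = 1 ∨ k = 2 ∨ k = 3 ∨ k = 4 ∨ 5 ≤ k) with rfl | rfl | rfl | rfl | h5
    · rw [xp_one, mul_smul_comm, t.xw', smul_zero]
      exact zero_mem _
    · rw [xp_two, mul_smul_comm, t.bw', hc, zero_smul, smul_zero]
      exact zero_mem _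
    · rw [mul_smul_comm, t.x3w', smul_zero]
      exact zero_mem _
    · rw [mul_smul_comm, t.x4w', smul_zero]
      exact zero_mem _
    · rw [t.xkv h5 _ hm]
      exact zero_mem _
  · intro m hm n hn
    rw [t.vv m hm n hn, t.s30 m hm n hn, zero_smul, add_zero]
    exact add_mem (add_mem (add_mem (add_mem (add_mem (t.mw _ (by omega)) (t.mw3 _ (by omega)))
      (t.mx _ _ (by omega))) (t.mx _ _ (by omega))) (t.mx _ _ (by omega))) (t.mx _ _ (by omega))
  · intro m hm n hn hn2
    obtain ⟨a, b, rfl⟩ := t.ex2 n hn hn2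
    rw [mul_add, mul_smul_comm, mul_smul_comm, t.vw m hm, t.vw' m hm, t.k40 m hm, hk5 m hm,
      t.l50 m hm]
    simp only [zero_smul, zero_add, add_zero]
    exact add_mem (Submodule.smul_mem _ _ (add_mem (add_mem (t.mw3 _ (by omega))
      (t.mx _ _ (by omega))) (t.mx _ _ (by omega)))) (Submodule.smul_mem _ _
      (add_mem (t.mx _ _ (by omega)) (t.mx _ _ (by omega))))
  · intro m hm n hn hn3
    obtain ⟨b, rfl⟩ := t.ex3 n hn hn3
    rw [mul_smul_comm, t.vw' m hm, t.l50 m hm, hl6 m hm, zero_smul, zero_smul, zero_add, zero_add]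
    exact Submodule.smul_mem _ _ (t.mx _ _ (by omega))
  · intro m hm hm2 n hn hn2
    obtain ⟨a, b, rfl⟩ := t.ex2 n hn hn2
    obtain ⟨a', b', rfl⟩ := t.ex2 m hm hm2
    simp only [mul_add, add_mul, smul_mul_assoc, mul_smul_comm, t.ww, t.ww', t.w'w, t.w'w', t.e0,
      t.f0, t.o50, ho, hg, zero_smul, zero_add, smul_zero, add_zero]
    exact (Submodule.smul_mem _ _ (Submodule.smul_mem _ _ (t.mx _ _ (by omega))))
  · intro m hm hm2 n hn hn3
    obtain ⟨b, rfl⟩ := t.ex3 n hn hn3
    obtain ⟨a', b', rfl⟩ := t.ex2 m hm hm2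
    simp only [mul_add, add_mul, smul_mul_assoc, mul_smul_comm, t.ww, t.ww', t.w'w, t.w'w', t.e0,
      t.f0, t.o50, ho, hg, zero_smul, zero_add, smul_zero, add_zero]
    exact zero_mem _
  · intro m hm hm3 n hn hn3
    obtain ⟨b, rfl⟩ := t.ex3 n hn hn3
    obtain ⟨b', rfl⟩ := t.ex3 m hm hm3
    simp only [smul_mul_assoc, mul_smul_comm, t.w'w', t.f0, zero_smul, smul_zero]
    exact zero_mem _

/-- weights 4, 7, 14, 15 -/
theorem finC {e : J} (hcr : Crit F J 7 e) (hn : ngen F J = 3) (ha : t.a0 = 0) (ho : t.o6 = 0)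
    (hg : t.g = 0) (hga : ∀ v ∈ M, t.ga v = 0) (hk5 : ∀ v ∈ M, t.k5 v = 0) : False := by
  have hfin := hcr.fin
  obtain ⟨y, hy, z, hz, hyz, -, hspan⟩ := t.cv.exists_yz hn
  refine t.cv.fin_end hcr hy hz hyz hspan (p := 4) (q := 7) (r := 14) (t := 15) (by omega)
    (by omega) (by omega) (by omega) (by omega) (by omega) (by omega) (by omega) ?_ ?_ ?_ ?_ ?_ ?_
    ?_ ?_ ?_
  · intro k hk m hm
    rcases (by omega : k = 1 ∨ k = 2 ∨ k = 3 ∨ k = 4 ∨ 5 ≤ k) with rfl | rfl | rfl | rfl | h5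
    · rw [xp_one, t.xv m hm]
      exact add_mem (t.mw _ (by omega)) (t.mw' _ (by omega))
    · rw [xp_two, t.bv m hm]
      exact add_mem (add_mem (add_mem (t.mw3 _ (by omega)) (t.mx _ _ (by omega)))
        (t.mx _ _ (by omega))) (t.mx _ _ (by omega))
    · rw [t.x3v m hm]
      exact add_mem (t.mx _ _ (by omega)) (t.mx _ _ (by omega))
    · rw [t.x4v m hm]
      exact t.mx _ _ (by omega)
    · rw [t.xkv h5 m hm]
      exact zero_mem _
  · intro k hk m hm hm2
    obtain ⟨a, b, rfl⟩ := t.ex2 m hm hm2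
    rcases (by omega : k = 1 ∨ k = 2 ∨ k = 3 ∨ k = 4 ∨ 5 ≤ k) with rfl | rfl | rfl | rfl | h5
    · rw [xp_one, mul_add, mul_smul_comm, mul_smul_comm, t.xw, t.xw', ha, zero_smul, smul_zero,
        smul_zero, add_zero]
      exact zero_mem _
    · rw [xp_two, mul_add, mul_smul_comm, mul_smul_comm, t.bw, t.bw', smul_add, smul_smul,
        smul_smul, smul_smul]
      exact add_mem (add_mem (t.mx _ _ (by omega)) (t.mx _ _ (by omega))) (t.mx _ _ (by omega))
    · rw [mul_add, mul_smul_comm, mul_smul_comm, t.x3w, t.x3w', smul_zero, add_zero, smul_smul]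
      exact t.mx _ _ (by omega)
    · rw [mul_add, mul_smul_comm, mul_smul_comm, t.x4w, t.x4w', smul_zero, smul_zero, add_zero]
      exact zero_mem _
    · rw [t.xkv h5 _ hm]
      exact zero_mem _
  · intro k hk m hm hm3
    obtain ⟨b, rfl⟩ := t.ex3 m hm hm3
    rcases (by omega : k = 1 ∨ k = 2 ∨ k = 3 ∨ k = 4 ∨ 5 ≤ k) with rfl | rfl | rfl | rfl | h5
    · rw [xp_one, mul_smul_comm, t.xw', smul_zero]
      exact zero_mem _
    · rw [xp_two, mul_smul_comm, t.bw', smul_smul]
      exact t.mx _ _ (by omega)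
    · rw [mul_smul_comm, t.x3w', smul_zero]
      exact zero_mem _
    · rw [mul_smul_comm, t.x4w', smul_zero]
      exact zero_mem _
    · rw [t.xkv h5 _ hm]
      exact zero_mem _
  · intro m hm n hn
    rw [t.vv m hm n hn, t.s30 m hm n hn, zero_smul, add_zero]
    exact add_mem (add_mem (add_mem (add_mem (add_mem (t.mw _ (by omega)) (t.mw3 _ (by omega)))
      (t.mx _ _ (by omega))) (t.mx _ _ (by omega))) (t.mx _ _ (by omega))) (t.mx _ _ (by omega))
  · intro m hm n hn hn2
    obtain ⟨a, b, rfl⟩ := t.ex2 n hn hn2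
    rw [mul_add, mul_smul_comm, mul_smul_comm, t.vw m hm, t.vw' m hm, hga m hm, t.k40 m hm,
      hk5 m hm, t.l50 m hm]
    simp only [zero_smul, zero_add, add_zero]
    exact add_mem (Submodule.smul_mem _ _ (add_mem (t.mx _ _ (by omega)) (t.mx _ _ (by omega))))
      (Submodule.smul_mem _ _ (add_mem (t.mx _ _ (by omega)) (t.mx _ _ (by omega))))
  · intro m hm n hn hn3
    obtain ⟨b, rfl⟩ := t.ex3 n hn hn3
    rw [mul_smul_comm, t.vw' m hm, t.l50 m hm, zero_smul, zero_add]
    exact Submodule.smul_mem _ _ (add_mem (t.mx _ _ (by omega)) (t.mx _ _ (by omega)))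
  · intro m hm hm2 n hn hn2
    obtain ⟨a, b, rfl⟩ := t.ex2 n hn hn2
    obtain ⟨a', b', rfl⟩ := t.ex2 m hm hm2
    simp only [mul_add, add_mul, smul_mul_assoc, mul_smul_comm, t.ww, t.ww', t.w'w, t.w'w', t.e0,
      t.f0, t.o50, ho, hg, zero_smul, zero_add, smul_zero, add_zero]
    exact (Submodule.smul_mem _ _ (Submodule.smul_mem _ _ (t.mx _ _ (by omega))))
  · intro m hm hm2 n hn hn3
    obtain ⟨b, rfl⟩ := t.ex3 n hn hn3
    obtain ⟨a', b', rfl⟩ := t.ex2 m hm hm2
    simp only [mul_add, add_mul, smul_mul_assoc, mul_smul_comm, t.ww, t.ww', t.w'w, t.w'w', t.e0,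
      t.f0, t.o50, ho, hg, zero_smul, zero_add, smul_zero, add_zero]
    exact zero_mem _
  · intro m hm hm3 n hn hn3
    obtain ⟨b, rfl⟩ := t.ex3 n hn hn3
    obtain ⟨b', rfl⟩ := t.ex3 m hm hm3
    simp only [smul_mul_assoc, mul_smul_comm, t.w'w', t.f0, zero_smul, smul_zero]
    exact zero_mem _

end Tb

/-- class 7, three generators, curvilinear, case II -/
theorem caseII [Infinite F] {e : J} (hcr : Crit F J 7 e) (hn : ngen F J = 3) {x : J}
    {φ : J →ₗ[F] F} {M : Submodule F J} (h : Cv F x 7 φ M)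
    (h2 : finrank F (M ⊓ jpow F J 2 : Submodule F J) = 2)
    (h3 : finrank F (M ⊓ jpow F J 3 : Submodule F J) = 1)
    (h4 : M ⊓ jpow F J 4 = ⊥) : False := by
  obtain ⟨t⟩ := h.exists_Tb hcr h2 h3 h4
  have two := h.two
  by_cases hga : ∀ v ∈ M, t.ga v = 0
  · by_cases hB : ∀ v ∈ M, ∀ v' ∈ M, t.B v v' = 0
    · exact t.finA hcr hn hga hB
    · push Not at hB
      obtain ⟨v1, hv1, v2, hv2, hB⟩ := hB
      have hc0 : ∀ r : F, (∀ v ∈ M, t.B v v * r = 0) → r = 0 := fun r hr =>
        (mul_eq_zero.mp (t.pol hr v1 hv1 v2 hv2)).resolve_left hB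
      by_cases ha : t.a0 = 0
      · have ho : t.o6 = 0 := by
          refine hc0 _ fun v hv => ?_
          have := t.g1 v hv t.e0 t.f0 t.o50 (t.l50 v hv) (t.k40 v hv) (t.s30 v hv v hv)
          rw [ha, hga v hv] at this
          linear_combination -this
        have hk5 : ∀ v ∈ M, t.k5 v = 0 := by
          intro v hv
          have := t.r5 v hv
          rw [ha, hga v hv, ho, t.e0] at this
          linear_combination this
        have hg : t.g = 0 := by
          by_contra hg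
          refine t.n2 ha (fun v hv => ?_) hga
          have := t.r7 v hv
          rw [ha, hga v hv, hk5 v hv] at this
          have h1 : t.de v * t.g = 0 := by linear_combination -this
          exact (mul_eq_zero.mp h1).resolve_right hg
        exact t.finC hcr hn ha ho hg hga hk5
      · have hg : t.g = 0 := by
          have := t.f1 v1 hv1 v2 hv2 t.e0 t.f0 t.o50 (t.l50 v1 hv1) (t.k40 v1 hv1) (t.l50 v2 hv2)
            (t.k40 v2 hv2) (t.s30 v1 hv1 v2 hv2)
          rw [hga v1 hv1] at this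
          have h1 : t.a0 * t.B v1 v2 * t.g = 0 := by linear_combination -this
          exact (mul_eq_zero.mp h1).resolve_left (mul_ne_zero ha hB)
        have ho : t.o6 = 0 := by
          refine hc0 _ fun v hv => ?_
          have := t.g1 v hv t.e0 t.f0 t.o50 (t.l50 v hv) (t.k40 v hv) (t.s30 v hv v hv)
          rw [hg] at this
          linear_combination -this
        have hk5 : ∀ v ∈ M, t.k5 v = 0 := by
          intro v hv
          have := t.r5 v hv
          rw [hga v hv, ho, t.e0, t.f0, hg] at this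
          linear_combination this
        have hl6 : ∀ v ∈ M, t.l6 v = 0 := by
          intro v hv
          have := t.r7 v hv
          rw [hga v hv, hk5 v hv, t.f0, hg] at this
          have h1 : (2 * t.a0) * t.l6 v = 0 := by linear_combination -this
          exact (mul_eq_zero.mp h1).resolve_left (mul_ne_zero two ha)
        have hc : t.c = 0 := by
          refine (mul_eq_zero.mp (hc0 (t.a0 * t.c) fun v hv => ?_)).resolve_left ha
          have := t.h1 v hv t.e0 t.f0 t.o50 (t.l50 v hv) (t.k40 v hv) (t.s30 v hv v hv)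
          rw [ho, hl6 v hv] at this
          linear_combination this
        exact t.finB hcr hn hc ho hg hk5 hl6
  · push Not at hga
    obtain ⟨v1, hv1, hga⟩ := hga
    have hg : t.g = 0 := by
      by_contra hg
      have h1 : ∀ v ∈ M, t.ga v ≠ 0 → t.al v = 0 := by
        intro v hv hne
        have := t.e1 v hv t.e0 t.f0 t.o50 (t.l50 v hv) (t.k40 v hv) (t.s30 v hv v hv)
        have := (mul_eq_zero.mp this).resolve_left two
        have := (mul_eq_zero.mp this).resolve_right hg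
        exact (mul_eq_zero.mp this).resolve_left hne
      have h3 : ∀ v ∈ M, t.ga v ≠ 0 → ∀ v' ∈ M, t.B v v' = 0 := by
        intro v hv hne v' hv'
        have := t.e2 v hv v' hv' t.e0 t.f0 t.o50 (t.l50 v hv) (t.k40 v hv) (t.l50 v' hv')
          (t.k40 v' hv') (t.s30 v hv v hv) (t.s30 v hv v' hv')
        have := (mul_eq_zero.mp this).resolve_left two
        have := (mul_eq_zero.mp this).resolve_right hg
        exact (mul_eq_zero.mp this).resolve_left hne
      refine t.n1 (fun v hv => ?_) fun v hv v' hv' => ?_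
      · by_cases hv0 : t.ga v = 0
        · have := h1 (v1 + v) (add_mem hv1 hv) (by rw [map_add, hv0, add_zero]; exact hga)
          rwa [map_add, h1 v1 hv1 hga, zero_add] at this
        · exact h1 v hv hv0
      · by_cases hv0 : t.ga v = 0
        · have := h3 (v1 + v) (add_mem hv1 hv) (by rw [map_add, hv0, add_zero]; exact hga) v' hv'
          rwa [map_add, LinearMap.add_apply, h3 v1 hv1 hga v' hv', zero_add] at this
        · exact h3 v hv hv0 v' hv'
    have hc : t.c = 0 := by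
      have := t.d1 v1 hv1 t.e0 t.f0 t.o50 (t.l50 v1 hv1) (t.k40 v1 hv1)
      rw [hg, mul_zero, add_zero] at this
      exact (mul_eq_zero.mp this).resolve_left hga
    have hl6 : ∀ v ∈ M, t.l6 v = 0 := by
      intro v hv
      have := t.f1 v1 hv1 v hv t.e0 t.f0 t.o50 (t.l50 v1 hv1) (t.k40 v1 hv1) (t.l50 v hv)
        (t.k40 v hv) (t.s30 v1 hv1 v hv)
      rw [hg, mul_zero, mul_zero, add_zero] at this
      exact (mul_eq_zero.mp this).resolve_left hga
    have hk5 : ∀ v ∈ M, t.k5 v = 0 := by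
      intro v hv
      have := t.r7 v hv
      rw [hc, hg, hl6 v hv, t.f0] at this
      linear_combination this
    have ho : t.o6 = 0 := by
      refine t.zero_of (fun v hv => ?_) fun v hv => ?_
      · have := t.r5 v hv
        rw [hc, hg, hk5 v hv, t.f0, t.e0] at this
        have h1 : 2 * (t.al v * t.o6) = 0 := by linear_combination -this
        exact (mul_eq_zero.mp h1).resolve_left two
      · have := t.g1 v hv t.e0 t.f0 t.o50 (t.l50 v hv) (t.k40 v hv) (t.s30 v hv v hv)
        rw [hg] at this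
        linear_combination -this
    exact t.finB hcr hn hc ho hg hk5 hl6

end L2
end JD
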