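import Pool.Agent.H78.C7.Tab2

set_option autoImplicit false
set_option linter.unusedSectionVars false
set_option linter.unusedVariables false
set_option linter.unusedSimpArgs false
set_option maxHeartbeats 1000000

/-!
# JD: class 7, case II: the relations
-/

namespace JD
namespace L2

universe u

open Module

variable {F : Type u} [Field F] {J : Type u} [NonUnitalNonAssocCommRing J] [Module F J]
  [IsScalarTower F J J] [SMulCommClass F J J]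

namespace Tb

variable {x : J} {φ : J →ₗ[F] F} {M : Submodule F J} (t : Tb F x φ M)
include t

theorem vx (v : J) (hv : v ∈ M) : v * x = t.al v • t.w + t.al' v • t.w' := by rw [mul_comm, t.xv v hv]
theorem vb (v : J) (hv : v ∈ M) : v * (x * x) = t.de v • t.w' + (t.al v * (t.a0 * t.c)) • xp x 5
    + (t.al v * t.cw + t.al' v * t.c) • xp x 6 + t.rho v • xp x 7 := by rw [mul_comm, t.bv v hv]
theorem vx3 (v : J) (hv : v ∈ M) : v * xp x 3 = (3 * (t.al v * (t.a0 * t.c))) • xp x 6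
    + (3 * (t.al v * t.cw + t.al' v * t.c)) • xp x 7 := by rw [mul_comm, t.x3v v hv]
theorem vx4 (v : J) (hv : v ∈ M) : v * xp x 4 = (t.de v * t.c + 5 * (t.al v * (t.a0 * t.c))) • xp x 7 := by rw [mul_comm, t.x4v v hv]
theorem vx5 (v : J) (hv : v ∈ M) : v * xp x 5 = 0 := by rw [mul_comm, t.x5v v hv]
theorem vx6 (v : J) (hv : v ∈ M) : v * xp x 6 = 0 := by rw [mul_comm, t.x6v v hv]
theorem vx7 (v : J) (hv : v ∈ M) : v * xp x 7 = 0 := by rw [mul_comm, t.x7v v hv]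
theorem wv (v : J) (hv : v ∈ M) : t.w * v = t.ga v • t.w' + t.k4 v • xp x 4 + t.k5 v • xp x 5
    + t.k6 v • xp x 6 + t.k7 v • xp x 7 := by rw [mul_comm, t.vw v hv]
theorem w'v (v : J) (hv : v ∈ M) : t.w' * v = t.l5 v • xp x 5 + t.l6 v • xp x 6 + t.l7 v • xp x 7 := by rw [mul_comm, t.vw' v hv]
theorem wx : t.w * x = t.a0 • t.w' := by rw [mul_comm, t.xw]
theorem w'x : t.w' * x = 0 := by rw [mul_comm, t.xw']
theorem wb : t.w * (x * x) = (t.a0 * t.c) • xp x 6 + t.cw • xp x 7 := by rw [mul_comm, t.bw]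
theorem w'b : t.w' * (x * x) = t.c • xp x 7 := by rw [mul_comm, t.bw']
theorem wx3 : t.w * xp x 3 = (3 * (t.a0 * t.c)) • xp x 7 := by rw [mul_comm, t.x3w]
theorem w'x3 : t.w' * xp x 3 = 0 := by rw [mul_comm, t.x3w']
theorem wx4 : t.w * xp x 4 = 0 := by rw [mul_comm, t.x4w]
theorem w'x4 : t.w' * xp x 4 = 0 := by rw [mul_comm, t.x4w']
theorem x5w : xp x 5 * t.w = 0 := t.x5v _ t.hw
theorem x5w' : xp x 5 * t.w' = 0 := t.x5v _ t.hw'
theorem wx5 : t.w * xp x 5 = 0 := t.vx5 _ t.hw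
theorem w'x5 : t.w' * xp x 5 = 0 := t.vx5 _ t.hw'
theorem x6w : xp x 6 * t.w = 0 := t.x6v _ t.hw
theorem x6w' : xp x 6 * t.w' = 0 := t.x6v _ t.hw'
theorem wx6 : t.w * xp x 6 = 0 := t.vx6 _ t.hw
theorem w'x6 : t.w' * xp x 6 = 0 := t.vx6 _ t.hw'
theorem x7w : xp x 7 * t.w = 0 := t.x7v _ t.hw
theorem x7w' : xp x 7 * t.w' = 0 := t.x7v _ t.hw'
theorem wx7 : t.w * xp x 7 = 0 := t.vx7 _ t.hw
theorem w'x7 : t.w' * xp x 7 = 0 := t.vx7 _ t.hw'
theorem w'w : t.w' * t.w = t.e • xp x 6 + t.g • xp x 7 := by rw [mul_comm, t.ww']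
theorem q35 : xp x 3 * xp x 5 = 0 := t.pz (by omega) (by omega) (by omega)
theorem q36 : xp x 3 * xp x 6 = 0 := t.pz (by omega) (by omega) (by omega)
theorem q37 : xp x 3 * xp x 7 = 0 := t.pz (by omega) (by omega) (by omega)
theorem q44 : xp x 4 * xp x 4 = 0 := t.pz (by omega) (by omega) (by omega)
theorem q45 : xp x 4 * xp x 5 = 0 := t.pz (by omega) (by omega) (by omega)
theorem q46 : xp x 4 * xp x 6 = 0 := t.pz (by omega) (by omega) (by omega)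
theorem q47 : xp x 4 * xp x 7 = 0 := t.pz (by omega) (by omega) (by omega)
theorem q53 : xp x 5 * xp x 3 = 0 := t.pz (by omega) (by omega) (by omega)
theorem q54 : xp x 5 * xp x 4 = 0 := t.pz (by omega) (by omega) (by omega)
theorem q55 : xp x 5 * xp x 5 = 0 := t.pz (by omega) (by omega) (by omega)
theorem q56 : xp x 5 * xp x 6 = 0 := t.pz (by omega) (by omega) (by omega)
theorem q57 : xp x 5 * xp x 7 = 0 := t.pz (by omega) (by omega) (by omega)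
theorem q63 : xp x 6 * xp x 3 = 0 := t.pz (by omega) (by omega) (by omega)
theorem q64 : xp x 6 * xp x 4 = 0 := t.pz (by omega) (by omega) (by omega)
theorem q65 : xp x 6 * xp x 5 = 0 := t.pz (by omega) (by omega) (by omega)
theorem q66 : xp x 6 * xp x 6 = 0 := t.pz (by omega) (by omega) (by omega)
theorem q67 : xp x 6 * xp x 7 = 0 := t.pz (by omega) (by omega) (by omega)
theorem q73 : xp x 7 * xp x 3 = 0 := t.pz (by omega) (by omega) (by omega)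
theorem q74 : xp x 7 * xp x 4 = 0 := t.pz (by omega) (by omega) (by omega)
theorem q75 : xp x 7 * xp x 5 = 0 := t.pz (by omega) (by omega) (by omega)
theorem q76 : xp x 7 * xp x 6 = 0 := t.pz (by omega) (by omega) (by omega)
theorem q77 : xp x 7 * xp x 7 = 0 := t.pz (by omega) (by omega) (by omega)

theorem K0w : kap F x φ 0 t.w = 0 := t.cv.kapM _ t.hw
theorem K0w' : kap F x φ 0 t.w' = 0 := t.cv.kapM _ t.hw'
theorem K03 : kap F x φ 0 (xp x 3) = 0 := by rw [t.cv.kap_xp' _ _ (by omega), if_neg (by omega)]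
theorem K04 : kap F x φ 0 (xp x 4) = 0 := by rw [t.cv.kap_xp' _ _ (by omega), if_neg (by omega)]
theorem K05 : kap F x φ 0 (xp x 5) = 0 := by rw [t.cv.kap_xp' _ _ (by omega), if_neg (by omega)]
theorem K06 : kap F x φ 0 (xp x 6) = 0 := by rw [t.cv.kap_xp' _ _ (by omega), if_neg (by omega)]
theorem K07 : kap F x φ 0 (xp x 7) = 1 := by rw [t.cv.kap_xp' _ _ (by omega), if_pos (by omega)]
theorem K1w : kap F x φ 1 t.w = 0 := t.cv.kapM _ t.hw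
theorem K1w' : kap F x φ 1 t.w' = 0 := t.cv.kapM _ t.hw'
theorem K13 : kap F x φ 1 (xp x 3) = 0 := by rw [t.cv.kap_xp' _ _ (by omega), if_neg (by omega)]
theorem K14 : kap F x φ 1 (xp x 4) = 0 := by rw [t.cv.kap_xp' _ _ (by omega), if_neg (by omega)]
theorem K15 : kap F x φ 1 (xp x 5) = 0 := by rw [t.cv.kap_xp' _ _ (by omega), if_neg (by omega)]
theorem K16 : kap F x φ 1 (xp x 6) = 1 := by rw [t.cv.kap_xp' _ _ (by omega), if_pos (by omega)]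
theorem K17 : kap F x φ 1 (xp x 7) = 0 := by rw [t.cv.kap_xp' _ _ (by omega), if_neg (by omega)]
theorem K2w : kap F x φ 2 t.w = 0 := t.cv.kapM _ t.hw
theorem K2w' : kap F x φ 2 t.w' = 0 := t.cv.kapM _ t.hw'
theorem K23 : kap F x φ 2 (xp x 3) = 0 := by rw [t.cv.kap_xp' _ _ (by omega), if_neg (by omega)]
theorem K24 : kap F x φ 2 (xp x 4) = 0 := by rw [t.cv.kap_xp' _ _ (by omega), if_neg (by omega)]
theorem K25 : kap F x φ 2 (xp x 5) = 1 := by rw [t.cv.kap_xp' _ _ (by omega), if_pos (by omega)]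
theorem K26 : kap F x φ 2 (xp x 6) = 0 := by rw [t.cv.kap_xp' _ _ (by omega), if_neg (by omega)]
theorem K27 : kap F x φ 2 (xp x 7) = 0 := by rw [t.cv.kap_xp' _ _ (by omega), if_neg (by omega)]
theorem K3w : kap F x φ 3 t.w = 0 := t.cv.kapM _ t.hw
theorem K3w' : kap F x φ 3 t.w' = 0 := t.cv.kapM _ t.hw'
theorem K33 : kap F x φ 3 (xp x 3) = 0 := by rw [t.cv.kap_xp' _ _ (by omega), if_neg (by omega)]
theorem K34 : kap F x φ 3 (xp x 4) = 1 := by rw [t.cv.kap_xp' _ _ (by omega), if_pos (by omega)]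
theorem K35 : kap F x φ 3 (xp x 5) = 0 := by rw [t.cv.kap_xp' _ _ (by omega), if_neg (by omega)]
theorem K36 : kap F x φ 3 (xp x 6) = 0 := by rw [t.cv.kap_xp' _ _ (by omega), if_neg (by omega)]
theorem K37 : kap F x φ 3 (xp x 7) = 0 := by rw [t.cv.kap_xp' _ _ (by omega), if_neg (by omega)]
theorem K4w : kap F x φ 4 t.w = 0 := t.cv.kapM _ t.hw
theorem K4w' : kap F x φ 4 t.w' = 0 := t.cv.kapM _ t.hw'
theorem K43 : kap F x φ 4 (xp x 3) = 1 := by rw [t.cv.kap_xp' _ _ (by omega), if_pos (by omega)]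
theorem K44 : kap F x φ 4 (xp x 4) = 0 := by rw [t.cv.kap_xp' _ _ (by omega), if_neg (by omega)]
theorem K45 : kap F x φ 4 (xp x 5) = 0 := by rw [t.cv.kap_xp' _ _ (by omega), if_neg (by omega)]
theorem K46 : kap F x φ 4 (xp x 6) = 0 := by rw [t.cv.kap_xp' _ _ (by omega), if_neg (by omega)]
theorem K47 : kap F x φ 4 (xp x 7) = 0 := by rw [t.cv.kap_xp' _ _ (by omega), if_neg (by omega)]
theorem K5w : kap F x φ 5 t.w = 0 := t.cv.kapM _ t.hw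
theorem K5w' : kap F x φ 5 t.w' = 0 := t.cv.kapM _ t.hw'
theorem K53 : kap F x φ 5 (xp x 3) = 0 := by rw [t.cv.kap_xp' _ _ (by omega), if_neg (by omega)]
theorem K54 : kap F x φ 5 (xp x 4) = 0 := by rw [t.cv.kap_xp' _ _ (by omega), if_neg (by omega)]
theorem K55 : kap F x φ 5 (xp x 5) = 0 := by rw [t.cv.kap_xp' _ _ (by omega), if_neg (by omega)]
theorem K56 : kap F x φ 5 (xp x 6) = 0 := by rw [t.cv.kap_xp' _ _ (by omega), if_neg (by omega)]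
theorem K57 : kap F x φ 5 (xp x 7) = 0 := by rw [t.cv.kap_xp' _ _ (by omega), if_neg (by omega)]

theorem r1 :
    t.o5 = 2 * t.a0 * t.e - 2 * t.a0 ^ 2 * t.f := by
  have key := congrArg (kap F x φ 0) (comm2 F t.cv.two t.cv.jordan x t.w t.w)
  simp only [
    mul_add, add_mul, mul_smul_comm, smul_mul_assoc, smul_add, smul_smul, mul_zero, zero_mul,
    smul_zero, add_zero, zero_add, sub_zero, zero_sub, t.x2, t.x3, t.x4, t.x5, t.x6, t.x7, t.x2',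
    t.x3', t.x4', t.x5', t.x6', t.x7', t.b2, t.b3, t.b4, t.b5, t.b6, t.b7, t.b3', t.b4', t.b5',
    t.b6', t.b7', t.p33, t.p34, t.p43, t.q35, t.q36, t.q37, t.q44, t.q45, t.q46, t.q47, t.q53,
    t.q54, t.q55, t.q56, t.q57, t.q63, t.q64, t.q65, t.q66, t.q67, t.q73, t.q74, t.q75, t.q76,
    t.q77, t.xw, t.xw', t.bw, t.bw', t.x3w, t.x3w', t.x4w, t.x4w', t.wx, t.w'x, t.wb, t.w'b,
    t.wx3, t.w'x3, t.wx4, t.w'x4, t.x5w, t.x5w', t.wx5, t.w'x5, t.x6w, t.x6w', t.wx6, t.w'x6,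
    t.x7w, t.x7w', t.wx7, t.w'x7, t.ww, t.ww', t.w'w, t.w'w', zero_smul, map_zero, map_add,
    map_sub, map_smul, smul_eq_mul, mul_one, map_neg, neg_zero, sub_self, t.K0w, t.K0w', t.K03,
    t.K04, t.K05, t.K06, t.K07] at key
  linear_combination key

theorem r2 (v : J) (hv : v ∈ M) :
    t.l5 v = 2 * t.al v * t.e := by
  have key := congrArg (kap F x φ 0) (comm2 F t.cv.two t.cv.jordan x v t.w')
  simp only [
    mul_add, add_mul, mul_smul_comm, smul_mul_assoc, smul_add, smul_smul, mul_zero, zero_mul,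
    smul_zero, add_zero, zero_add, sub_zero, zero_sub, t.x2, t.x3, t.x4, t.x5, t.x6, t.x7, t.x2',
    t.x3', t.x4', t.x5', t.x6', t.x7', t.b2, t.b3, t.b4, t.b5, t.b6, t.b7, t.b3', t.b4', t.b5',
    t.b6', t.b7', t.p33, t.p34, t.p43, t.q35, t.q36, t.q37, t.q44, t.q45, t.q46, t.q47, t.q53,
    t.q54, t.q55, t.q56, t.q57, t.q63, t.q64, t.q65, t.q66, t.q67, t.q73, t.q74, t.q75, t.q76,
    t.q77, t.xw, t.xw', t.bw, t.bw', t.x3w, t.x3w', t.x4w, t.x4w', t.wx, t.w'x, t.wb, t.w'b,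
    t.wx3, t.w'x3, t.wx4, t.w'x4, t.x5w, t.x5w', t.wx5, t.w'x5, t.x6w, t.x6w', t.wx6, t.w'x6,
    t.x7w, t.x7w', t.wx7, t.w'x7, t.ww, t.ww', t.w'w, t.w'w', t.xv v hv, t.bv v hv, t.x3v v hv,
    t.x4v v hv, t.x5v v hv, t.x6v v hv, t.x7v v hv, t.vx v hv, t.vb v hv, t.vx3 v hv, t.vx4 v hv,
    t.vx5 v hv, t.vx6 v hv, t.vx7 v hv, t.vw v hv, t.vw' v hv, t.wv v hv, t.w'v v hv, zero_smul,
    map_zero, map_add, map_sub, map_smul, smul_eq_mul, mul_one, map_neg, neg_zero, sub_self,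
    t.K0w, t.K0w', t.K03, t.K04, t.K05, t.K06, t.K07] at key
  linear_combination key

theorem r3 (v : J) (hv : v ∈ M) :
    t.l5 v = t.de v * t.f := by
  have key := congrArg (kap F x φ 0) (comm2 F t.cv.two t.cv.jordan x t.w' v)
  simp only [
    mul_add, add_mul, mul_smul_comm, smul_mul_assoc, smul_add, smul_smul, mul_zero, zero_mul,
    smul_zero, add_zero, zero_add, sub_zero, zero_sub, t.x2, t.x3, t.x4, t.x5, t.x6, t.x7, t.x2',
    t.x3', t.x4', t.x5', t.x6', t.x7', t.b2, t.b3, t.b4, t.b5, t.b6, t.b7, t.b3', t.b4', t.b5',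
    t.b6', t.b7', t.p33, t.p34, t.p43, t.q35, t.q36, t.q37, t.q44, t.q45, t.q46, t.q47, t.q53,
    t.q54, t.q55, t.q56, t.q57, t.q63, t.q64, t.q65, t.q66, t.q67, t.q73, t.q74, t.q75, t.q76,
    t.q77, t.xw, t.xw', t.bw, t.bw', t.x3w, t.x3w', t.x4w, t.x4w', t.wx, t.w'x, t.wb, t.w'b,
    t.wx3, t.w'x3, t.wx4, t.w'x4, t.x5w, t.x5w', t.wx5, t.w'x5, t.x6w, t.x6w', t.wx6, t.w'x6,
    t.x7w, t.x7w', t.wx7, t.w'x7, t.ww, t.ww', t.w'w, t.w'w', t.xv v hv, t.bv v hv, t.x3v v hv,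
    t.x4v v hv, t.x5v v hv, t.x6v v hv, t.x7v v hv, t.vx v hv, t.vb v hv, t.vx3 v hv, t.vx4 v hv,
    t.vx5 v hv, t.vx6 v hv, t.vx7 v hv, t.vw v hv, t.vw' v hv, t.wv v hv, t.w'v v hv, zero_smul,
    map_zero, map_add, map_sub, map_smul, smul_eq_mul, mul_one, map_neg, neg_zero, sub_self,
    t.K0w, t.K0w', t.K03, t.K04, t.K05, t.K06, t.K07] at key
  linear_combination key

theorem r4 (v : J) (hv : v ∈ M) :
    t.k4 v = 2 * t.al v * t.o5 - 2 * t.a0 * t.al v * t.e := by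
  have key := congrArg (kap F x φ 1) (comm2 F t.cv.two t.cv.jordan x v t.w)
  simp only [
    mul_add, add_mul, mul_smul_comm, smul_mul_assoc, smul_add, smul_smul, mul_zero, zero_mul,
    smul_zero, add_zero, zero_add, sub_zero, zero_sub, t.x2, t.x3, t.x4, t.x5, t.x6, t.x7, t.x2',
    t.x3', t.x4', t.x5', t.x6', t.x7', t.b2, t.b3, t.b4, t.b5, t.b6, t.b7, t.b3', t.b4', t.b5',
    t.b6', t.b7', t.p33, t.p34, t.p43, t.q35, t.q36, t.q37, t.q44, t.q45, t.q46, t.q47, t.q53,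
    t.q54, t.q55, t.q56, t.q57, t.q63, t.q64, t.q65, t.q66, t.q67, t.q73, t.q74, t.q75, t.q76,
    t.q77, t.xw, t.xw', t.bw, t.bw', t.x3w, t.x3w', t.x4w, t.x4w', t.wx, t.w'x, t.wb, t.w'b,
    t.wx3, t.w'x3, t.wx4, t.w'x4, t.x5w, t.x5w', t.wx5, t.w'x5, t.x6w, t.x6w', t.wx6, t.w'x6,
    t.x7w, t.x7w', t.wx7, t.w'x7, t.ww, t.ww', t.w'w, t.w'w', t.xv v hv, t.bv v hv, t.x3v v hv,
    t.x4v v hv, t.x5v v hv, t.x6v v hv, t.x7v v hv, t.vx v hv, t.vb v hv, t.vx3 v hv, t.vx4 v hv,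
    t.vx5 v hv, t.vx6 v hv, t.vx7 v hv, t.vw v hv, t.vw' v hv, t.wv v hv, t.w'v v hv, zero_smul,
    map_zero, map_add, map_sub, map_smul, smul_eq_mul, mul_one, map_neg, neg_zero, sub_self,
    t.K1w, t.K1w', t.K13, t.K14, t.K15, t.K16, t.K17] at key
  linear_combination key

theorem r5 (v : J) (hv : v ∈ M) :
    t.ga v * t.c + t.k5 v = 2 * t.al v * t.o6 + 2 * t.al' v * t.e
      - 2 * t.a0 * t.al v * t.g - 2 * t.a0 * t.al' v * t.f := by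
  have key := congrArg (kap F x φ 0) (comm2 F t.cv.two t.cv.jordan x v t.w)
  simp only [
    mul_add, add_mul, mul_smul_comm, smul_mul_assoc, smul_add, smul_smul, mul_zero, zero_mul,
    smul_zero, add_zero, zero_add, sub_zero, zero_sub, t.x2, t.x3, t.x4, t.x5, t.x6, t.x7, t.x2',
    t.x3', t.x4', t.x5', t.x6', t.x7', t.b2, t.b3, t.b4, t.b5, t.b6, t.b7, t.b3', t.b4', t.b5',
    t.b6', t.b7', t.p33, t.p34, t.p43, t.q35, t.q36, t.q37, t.q44, t.q45, t.q46, t.q47, t.q53,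
    t.q54, t.q55, t.q56, t.q57, t.q63, t.q64, t.q65, t.q66, t.q67, t.q73, t.q74, t.q75, t.q76,
    t.q77, t.xw, t.xw', t.bw, t.bw', t.x3w, t.x3w', t.x4w, t.x4w', t.wx, t.w'x, t.wb, t.w'b,
    t.wx3, t.w'x3, t.wx4, t.w'x4, t.x5w, t.x5w', t.wx5, t.w'x5, t.x6w, t.x6w', t.wx6, t.w'x6,
    t.x7w, t.x7w', t.wx7, t.w'x7, t.ww, t.ww', t.w'w, t.w'w', t.xv v hv, t.bv v hv, t.x3v v hv,
    t.x4v v hv, t.x5v v hv, t.x6v v hv, t.x7v v hv, t.vx v hv, t.vb v hv, t.vx3 v hv, t.vx4 v hv,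
    t.vx5 v hv, t.vx6 v hv, t.vx7 v hv, t.vw v hv, t.vw' v hv, t.wv v hv, t.w'v v hv, zero_smul,
    map_zero, map_add, map_sub, map_smul, smul_eq_mul, mul_one, map_neg, neg_zero, sub_self,
    t.K0w, t.K0w', t.K03, t.K04, t.K05, t.K06, t.K07] at key
  linear_combination key

theorem r6 (v : J) (hv : v ∈ M) :
    t.k4 v - t.de v * t.e = 2 * t.a0 * (t.l5 v - t.al v * t.e) := by
  have key := congrArg (kap F x φ 1) (comm2 F t.cv.two t.cv.jordan x t.w v)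
  simp only [
    mul_add, add_mul, mul_smul_comm, smul_mul_assoc, smul_add, smul_smul, mul_zero, zero_mul,
    smul_zero, add_zero, zero_add, sub_zero, zero_sub, t.x2, t.x3, t.x4, t.x5, t.x6, t.x7, t.x2',
    t.x3', t.x4', t.x5', t.x6', t.x7', t.b2, t.b3, t.b4, t.b5, t.b6, t.b7, t.b3', t.b4', t.b5',
    t.b6', t.b7', t.p33, t.p34, t.p43, t.q35, t.q36, t.q37, t.q44, t.q45, t.q46, t.q47, t.q53,
    t.q54, t.q55, t.q56, t.q57, t.q63, t.q64, t.q65, t.q66, t.q67, t.q73, t.q74, t.q75, t.q76,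
    t.q77, t.xw, t.xw', t.bw, t.bw', t.x3w, t.x3w', t.x4w, t.x4w', t.wx, t.w'x, t.wb, t.w'b,
    t.wx3, t.w'x3, t.wx4, t.w'x4, t.x5w, t.x5w', t.wx5, t.w'x5, t.x6w, t.x6w', t.wx6, t.w'x6,
    t.x7w, t.x7w', t.wx7, t.w'x7, t.ww, t.ww', t.w'w, t.w'w', t.xv v hv, t.bv v hv, t.x3v v hv,
    t.x4v v hv, t.x5v v hv, t.x6v v hv, t.x7v v hv, t.vx v hv, t.vb v hv, t.vx3 v hv, t.vx4 v hv,
    t.vx5 v hv, t.vx6 v hv, t.vx7 v hv, t.vw v hv, t.vw' v hv, t.wv v hv, t.w'v v hv, zero_smul,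
    map_zero, map_add, map_sub, map_smul, smul_eq_mul, mul_one, map_neg, neg_zero, sub_self,
    t.K1w, t.K1w', t.K13, t.K14, t.K15, t.K16, t.K17] at key
  linear_combination key

theorem r7 (v : J) (hv : v ∈ M) :
    t.ga v * t.c + t.k5 v - t.de v * t.g = 2 * t.a0 * t.l6 v
      - 2 * t.a0 * t.al v * t.g - 2 * t.a0 * t.al' v * t.f := by
  have key := congrArg (kap F x φ 0) (comm2 F t.cv.two t.cv.jordan x t.w v)
  simp only [
    mul_add, add_mul, mul_smul_comm, smul_mul_assoc, smul_add, smul_smul, mul_zero, zero_mul,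
    smul_zero, add_zero, zero_add, sub_zero, zero_sub, t.x2, t.x3, t.x4, t.x5, t.x6, t.x7, t.x2',
    t.x3', t.x4', t.x5', t.x6', t.x7', t.b2, t.b3, t.b4, t.b5, t.b6, t.b7, t.b3', t.b4', t.b5',
    t.b6', t.b7', t.p33, t.p34, t.p43, t.q35, t.q36, t.q37, t.q44, t.q45, t.q46, t.q47, t.q53,
    t.q54, t.q55, t.q56, t.q57, t.q63, t.q64, t.q65, t.q66, t.q67, t.q73, t.q74, t.q75, t.q76,
    t.q77, t.xw, t.xw', t.bw, t.bw', t.x3w, t.x3w', t.x4w, t.x4w', t.wx, t.w'x, t.wb, t.w'b,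
    t.wx3, t.w'x3, t.wx4, t.w'x4, t.x5w, t.x5w', t.wx5, t.w'x5, t.x6w, t.x6w', t.wx6, t.w'x6,
    t.x7w, t.x7w', t.wx7, t.w'x7, t.ww, t.ww', t.w'w, t.w'w', t.xv v hv, t.bv v hv, t.x3v v hv,
    t.x4v v hv, t.x5v v hv, t.x6v v hv, t.x7v v hv, t.vx v hv, t.vb v hv, t.vx3 v hv, t.vx4 v hv,
    t.vx5 v hv, t.vx6 v hv, t.vx7 v hv, t.vw v hv, t.vw' v hv, t.wv v hv, t.w'v v hv, zero_smul,
    map_zero, map_add, map_sub, map_smul, smul_eq_mul, mul_one, map_neg, neg_zero, sub_self,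
    t.K0w, t.K0w', t.K03, t.K04, t.K05, t.K06, t.K07] at key
  linear_combination key

theorem r8 (v : J) (hv : v ∈ M) :
    2 * (t.al v ^ 2 * t.o5) = 2 * (t.al v * t.a0 * t.l5 v) := by
  have key := congrArg (kap F x φ 2) (comm3 F t.cv.two t.cv.jordan v v x x)
  simp only [
    mul_add, add_mul, mul_smul_comm, smul_mul_assoc, smul_add, smul_smul, mul_zero, zero_mul,
    smul_zero, add_zero, zero_add, sub_zero, zero_sub, t.x2, t.x3, t.x4, t.x5, t.x6, t.x7, t.x2',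
    t.x3', t.x4', t.x5', t.x6', t.x7', t.b2, t.b3, t.b4, t.b5, t.b6, t.b7, t.b3', t.b4', t.b5',
    t.b6', t.b7', t.p33, t.p34, t.p43, t.q35, t.q36, t.q37, t.q44, t.q45, t.q46, t.q47, t.q53,
    t.q54, t.q55, t.q56, t.q57, t.q63, t.q64, t.q65, t.q66, t.q67, t.q73, t.q74, t.q75, t.q76,
    t.q77, t.xw, t.xw', t.bw, t.bw', t.x3w, t.x3w', t.x4w, t.x4w', t.wx, t.w'x, t.wb, t.w'b,
    t.wx3, t.w'x3, t.wx4, t.w'x4, t.x5w, t.x5w', t.wx5, t.w'x5, t.x6w, t.x6w', t.wx6, t.w'x6,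
    t.x7w, t.x7w', t.wx7, t.w'x7, t.ww, t.ww', t.w'w, t.w'w', t.xv v hv, t.bv v hv, t.x3v v hv,
    t.x4v v hv, t.x5v v hv, t.x6v v hv, t.x7v v hv, t.vx v hv, t.vb v hv, t.vx3 v hv, t.vx4 v hv,
    t.vx5 v hv, t.vx6 v hv, t.vx7 v hv, t.vw v hv, t.vw' v hv, t.wv v hv, t.w'v v hv,
    t.vv v hv v hv, zero_smul, map_zero, map_add, map_sub, map_smul, smul_eq_mul, mul_one,
    map_neg, neg_zero, sub_self, t.K2w, t.K2w', t.K23, t.K24, t.K25, t.K26, t.K27] at key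
  linear_combination key

theorem r9 (v : J) (hv : v ∈ M) :
    2 * (t.ga v ^ 2 * t.f) = 0 := by
  have key := congrArg (kap F x φ 0) (comm3 F t.cv.two t.cv.jordan v v t.w t.w)
  simp only [
    mul_add, add_mul, mul_smul_comm, smul_mul_assoc, smul_add, smul_smul, mul_zero, zero_mul,
    smul_zero, add_zero, zero_add, sub_zero, zero_sub, t.x2, t.x3, t.x4, t.x5, t.x6, t.x7, t.x2',
    t.x3', t.x4', t.x5', t.x6', t.x7', t.b2, t.b3, t.b4, t.b5, t.b6, t.b7, t.b3', t.b4', t.b5',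
    t.b6', t.b7', t.p33, t.p34, t.p43, t.q35, t.q36, t.q37, t.q44, t.q45, t.q46, t.q47, t.q53,
    t.q54, t.q55, t.q56, t.q57, t.q63, t.q64, t.q65, t.q66, t.q67, t.q73, t.q74, t.q75, t.q76,
    t.q77, t.xw, t.xw', t.bw, t.bw', t.x3w, t.x3w', t.x4w, t.x4w', t.wx, t.w'x, t.wb, t.w'b,
    t.wx3, t.w'x3, t.wx4, t.w'x4, t.x5w, t.x5w', t.wx5, t.w'x5, t.x6w, t.x6w', t.wx6, t.w'x6,
    t.x7w, t.x7w', t.wx7, t.w'x7, t.ww, t.ww', t.w'w, t.w'w', t.xv v hv, t.bv v hv, t.x3v v hv,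
    t.x4v v hv, t.x5v v hv, t.x6v v hv, t.x7v v hv, t.vx v hv, t.vb v hv, t.vx3 v hv, t.vx4 v hv,
    t.vx5 v hv, t.vx6 v hv, t.vx7 v hv, t.vw v hv, t.vw' v hv, t.wv v hv, t.w'v v hv,
    t.vv v hv v hv, zero_smul, map_zero, map_add, map_sub, map_smul, smul_eq_mul, mul_one,
    map_neg, neg_zero, sub_self, t.K0w, t.K0w', t.K03, t.K04, t.K05, t.K06, t.K07] at key
  linear_combination key

theorem r10 (v : J) (hv : v ∈ M) :
    t.B v v * t.e = 0 := by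
  have key := congrArg (kap F x φ 0) (comm3 F t.cv.two t.cv.jordan v v x t.w')
  simp only [
    mul_add, add_mul, mul_smul_comm, smul_mul_assoc, smul_add, smul_smul, mul_zero, zero_mul,
    smul_zero, add_zero, zero_add, sub_zero, zero_sub, t.x2, t.x3, t.x4, t.x5, t.x6, t.x7, t.x2',
    t.x3', t.x4', t.x5', t.x6', t.x7', t.b2, t.b3, t.b4, t.b5, t.b6, t.b7, t.b3', t.b4', t.b5',
    t.b6', t.b7', t.p33, t.p34, t.p43, t.q35, t.q36, t.q37, t.q44, t.q45, t.q46, t.q47, t.q53,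
    t.q54, t.q55, t.q56, t.q57, t.q63, t.q64, t.q65, t.q66, t.q67, t.q73, t.q74, t.q75, t.q76,
    t.q77, t.xw, t.xw', t.bw, t.bw', t.x3w, t.x3w', t.x4w, t.x4w', t.wx, t.w'x, t.wb, t.w'b,
    t.wx3, t.w'x3, t.wx4, t.w'x4, t.x5w, t.x5w', t.wx5, t.w'x5, t.x6w, t.x6w', t.wx6, t.w'x6,
    t.x7w, t.x7w', t.wx7, t.w'x7, t.ww, t.ww', t.w'w, t.w'w', t.xv v hv, t.bv v hv, t.x3v v hv,
    t.x4v v hv, t.x5v v hv, t.x6v v hv, t.x7v v hv, t.vx v hv, t.vb v hv, t.vx3 v hv, t.vx4 v hv,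
    t.vx5 v hv, t.vx6 v hv, t.vx7 v hv, t.vw v hv, t.vw' v hv, t.wv v hv, t.w'v v hv,
    t.vv v hv v hv, zero_smul, map_zero, map_add, map_sub, map_smul, smul_eq_mul, mul_one,
    map_neg, neg_zero, sub_self, t.K0w, t.K0w', t.K03, t.K04, t.K05, t.K06, t.K07] at key
  linear_combination -key

theorem r11 (v : J) (hv : v ∈ M) :
    t.a0 * t.B v v * t.e - t.B v v * t.o5 + 2 * t.al v * t.ga v * t.e = 0 := by
  have key := congrArg (kap F x φ 1) (comm3 F t.cv.two t.cv.jordan v v x t.w)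
  simp only [
    mul_add, add_mul, mul_smul_comm, smul_mul_assoc, smul_add, smul_smul, mul_zero, zero_mul,
    smul_zero, add_zero, zero_add, sub_zero, zero_sub, t.x2, t.x3, t.x4, t.x5, t.x6, t.x7, t.x2',
    t.x3', t.x4', t.x5', t.x6', t.x7', t.b2, t.b3, t.b4, t.b5, t.b6, t.b7, t.b3', t.b4', t.b5',
    t.b6', t.b7', t.p33, t.p34, t.p43, t.q35, t.q36, t.q37, t.q44, t.q45, t.q46, t.q47, t.q53,
    t.q54, t.q55, t.q56, t.q57, t.q63, t.q64, t.q65, t.q66, t.q67, t.q73, t.q74, t.q75, t.q76,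
    t.q77, t.xw, t.xw', t.bw, t.bw', t.x3w, t.x3w', t.x4w, t.x4w', t.wx, t.w'x, t.wb, t.w'b,
    t.wx3, t.w'x3, t.wx4, t.w'x4, t.x5w, t.x5w', t.wx5, t.w'x5, t.x6w, t.x6w', t.wx6, t.w'x6,
    t.x7w, t.x7w', t.wx7, t.w'x7, t.ww, t.ww', t.w'w, t.w'w', t.xv v hv, t.bv v hv, t.x3v v hv,
    t.x4v v hv, t.x5v v hv, t.x6v v hv, t.x7v v hv, t.vx v hv, t.vb v hv, t.vx3 v hv, t.vx4 v hv,
    t.vx5 v hv, t.vx6 v hv, t.vx7 v hv, t.vw v hv, t.vw' v hv, t.wv v hv, t.w'v v hv,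
    t.vv v hv v hv, zero_smul, map_zero, map_add, map_sub, map_smul, smul_eq_mul, mul_one,
    map_neg, neg_zero, sub_self, t.K1w, t.K1w', t.K13, t.K14, t.K15, t.K16, t.K17] at key
  linear_combination key

theorem r12 (v : J) (hv : v ∈ M) (v' : J) (hv' : v' ∈ M) :
    t.s3 v v' - t.de v' * t.l5 v = 2 * t.al v * t.k4 v' - 2 * t.al v * t.al v' * t.o5 := by
  have key := congrArg (kap F x φ 2) (comm2 F t.cv.two t.cv.jordan x v v')
  simp only [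
    mul_add, add_mul, mul_smul_comm, smul_mul_assoc, smul_add, smul_smul, mul_zero, zero_mul,
    smul_zero, add_zero, zero_add, sub_zero, zero_sub, t.x2, t.x3, t.x4, t.x5, t.x6, t.x7, t.x2',
    t.x3', t.x4', t.x5', t.x6', t.x7', t.b2, t.b3, t.b4, t.b5, t.b6, t.b7, t.b3', t.b4', t.b5',
    t.b6', t.b7', t.p33, t.p34, t.p43, t.q35, t.q36, t.q37, t.q44, t.q45, t.q46, t.q47, t.q53,
    t.q54, t.q55, t.q56, t.q57, t.q63, t.q64, t.q65, t.q66, t.q67, t.q73, t.q74, t.q75, t.q76,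
    t.q77, t.xw, t.xw', t.bw, t.bw', t.x3w, t.x3w', t.x4w, t.x4w', t.wx, t.w'x, t.wb, t.w'b,
    t.wx3, t.w'x3, t.wx4, t.w'x4, t.x5w, t.x5w', t.wx5, t.w'x5, t.x6w, t.x6w', t.wx6, t.w'x6,
    t.x7w, t.x7w', t.wx7, t.w'x7, t.ww, t.ww', t.w'w, t.w'w', t.xv v hv, t.bv v hv, t.x3v v hv,
    t.x4v v hv, t.x5v v hv, t.x6v v hv, t.x7v v hv, t.vx v hv, t.vb v hv, t.vx3 v hv, t.vx4 v hv,
    t.vx5 v hv, t.vx6 v hv, t.vx7 v hv, t.vw v hv, t.vw' v hv, t.wv v hv, t.w'v v hv,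
    t.xv v' hv', t.bv v' hv', t.x3v v' hv', t.x4v v' hv', t.x5v v' hv', t.x6v v' hv',
    t.x7v v' hv', t.vx v' hv', t.vb v' hv', t.vx3 v' hv', t.vx4 v' hv', t.vx5 v' hv',
    t.vx6 v' hv', t.vx7 v' hv', t.vw v' hv', t.vw' v' hv', t.wv v' hv', t.w'v v' hv',
    t.vv v hv v' hv', zero_smul, map_zero, map_add, map_sub, map_smul, smul_eq_mul, mul_one,
    map_neg, neg_zero, sub_self, t.K2w, t.K2w', t.K23, t.K24, t.K25, t.K26, t.K27] at key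
  linear_combination key

theorem d1 (v : J) (hv : v ∈ M) (he : t.e = 0) (hf : t.f = 0) (ho : t.o5 = 0) (hlv : t.l5 v = 0) (hkv : t.k4 v = 0) :
    t.ga v * t.c + t.a0 * t.al v * t.g = 0 := by
  have key := congrArg (kap F x φ 0) (comm3 F t.cv.two t.cv.jordan x v t.w x)
  simp only [
    mul_add, add_mul, mul_smul_comm, smul_mul_assoc, smul_add, smul_smul, mul_zero, zero_mul,
    smul_zero, add_zero, zero_add, sub_zero, zero_sub, t.x2, t.x3, t.x4, t.x5, t.x6, t.x7, t.x2',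
    t.x3', t.x4', t.x5', t.x6', t.x7', t.b2, t.b3, t.b4, t.b5, t.b6, t.b7, t.b3', t.b4', t.b5',
    t.b6', t.b7', t.p33, t.p34, t.p43, t.q35, t.q36, t.q37, t.q44, t.q45, t.q46, t.q47, t.q53,
    t.q54, t.q55, t.q56, t.q57, t.q63, t.q64, t.q65, t.q66, t.q67, t.q73, t.q74, t.q75, t.q76,
    t.q77, t.xw, t.xw', t.bw, t.bw', t.x3w, t.x3w', t.x4w, t.x4w', t.wx, t.w'x, t.wb, t.w'b,
    t.wx3, t.w'x3, t.wx4, t.w'x4, t.x5w, t.x5w', t.wx5, t.w'x5, t.x6w, t.x6w', t.wx6, t.w'x6,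
    t.x7w, t.x7w', t.wx7, t.w'x7, t.ww, t.ww', t.w'w, t.w'w', t.xv v hv, t.bv v hv, t.x3v v hv,
    t.x4v v hv, t.x5v v hv, t.x6v v hv, t.x7v v hv, t.vx v hv, t.vb v hv, t.vx3 v hv, t.vx4 v hv,
    t.vx5 v hv, t.vx6 v hv, t.vx7 v hv, t.vw v hv, t.vw' v hv, t.wv v hv, t.w'v v hv, he, hf, ho,
    hlv, hkv, zero_smul, map_zero, map_add, map_sub, map_smul, smul_eq_mul, mul_one, map_neg,
    neg_zero, sub_self, t.K0w, t.K0w', t.K03, t.K04, t.K05, t.K06, t.K07] at key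
  linear_combination key

theorem e1 (v : J) (hv : v ∈ M) (he : t.e = 0) (hf : t.f = 0) (ho : t.o5 = 0) (hlv : t.l5 v = 0) (hkv : t.k4 v = 0) (hs : t.s3 v v = 0) :
    2 * (t.ga v * t.al v * t.g) = 0 := by
  have key := congrArg (kap F x φ 0) (comm3 F t.cv.two t.cv.jordan v v t.w x)
  simp only [
    mul_add, add_mul, mul_smul_comm, smul_mul_assoc, smul_add, smul_smul, mul_zero, zero_mul,
    smul_zero, add_zero, zero_add, sub_zero, zero_sub, t.x2, t.x3, t.x4, t.x5, t.x6, t.x7, t.x2',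
    t.x3', t.x4', t.x5', t.x6', t.x7', t.b2, t.b3, t.b4, t.b5, t.b6, t.b7, t.b3', t.b4', t.b5',
    t.b6', t.b7', t.p33, t.p34, t.p43, t.q35, t.q36, t.q37, t.q44, t.q45, t.q46, t.q47, t.q53,
    t.q54, t.q55, t.q56, t.q57, t.q63, t.q64, t.q65, t.q66, t.q67, t.q73, t.q74, t.q75, t.q76,
    t.q77, t.xw, t.xw', t.bw, t.bw', t.x3w, t.x3w', t.x4w, t.x4w', t.wx, t.w'x, t.wb, t.w'b,
    t.wx3, t.w'x3, t.wx4, t.w'x4, t.x5w, t.x5w', t.wx5, t.w'x5, t.x6w, t.x6w', t.wx6, t.w'x6,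
    t.x7w, t.x7w', t.wx7, t.w'x7, t.ww, t.ww', t.w'w, t.w'w', t.xv v hv, t.bv v hv, t.x3v v hv,
    t.x4v v hv, t.x5v v hv, t.x6v v hv, t.x7v v hv, t.vx v hv, t.vb v hv, t.vx3 v hv, t.vx4 v hv,
    t.vx5 v hv, t.vx6 v hv, t.vx7 v hv, t.vw v hv, t.vw' v hv, t.wv v hv, t.w'v v hv,
    t.vv v hv v hv, he, hf, ho, hlv, hkv, hs, zero_smul, map_zero, map_add, map_sub, map_smul,
    smul_eq_mul, mul_one, map_neg, neg_zero, sub_self, t.K0w, t.K0w', t.K03, t.K04, t.K05, t.K06,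
    t.K07] at key
  linear_combination key

theorem e2 (v : J) (hv : v ∈ M) (v' : J) (hv' : v' ∈ M) (he : t.e = 0) (hf : t.f = 0) (ho : t.o5 = 0) (hlv : t.l5 v = 0) (hkv : t.k4 v = 0) (hlv' : t.l5 v' = 0) (hkv' : t.k4 v' = 0) (hs : t.s3 v v = 0) (hs' : t.s3 v v' = 0) :
    2 * (t.ga v * t.B v v' * t.g) = 0 := by
  have key := congrArg (kap F x φ 0) (comm3 F t.cv.two t.cv.jordan v v t.w v')
  simp only [
    mul_add, add_mul, mul_smul_comm, smul_mul_assoc, smul_add, smul_smul, mul_zero, zero_mul,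
    smul_zero, add_zero, zero_add, sub_zero, zero_sub, t.x2, t.x3, t.x4, t.x5, t.x6, t.x7, t.x2',
    t.x3', t.x4', t.x5', t.x6', t.x7', t.b2, t.b3, t.b4, t.b5, t.b6, t.b7, t.b3', t.b4', t.b5',
    t.b6', t.b7', t.p33, t.p34, t.p43, t.q35, t.q36, t.q37, t.q44, t.q45, t.q46, t.q47, t.q53,
    t.q54, t.q55, t.q56, t.q57, t.q63, t.q64, t.q65, t.q66, t.q67, t.q73, t.q74, t.q75, t.q76,
    t.q77, t.xw, t.xw', t.bw, t.bw', t.x3w, t.x3w', t.x4w, t.x4w', t.wx, t.w'x, t.wb, t.w'b,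
    t.wx3, t.w'x3, t.wx4, t.w'x4, t.x5w, t.x5w', t.wx5, t.w'x5, t.x6w, t.x6w', t.wx6, t.w'x6,
    t.x7w, t.x7w', t.wx7, t.w'x7, t.ww, t.ww', t.w'w, t.w'w', t.xv v hv, t.bv v hv, t.x3v v hv,
    t.x4v v hv, t.x5v v hv, t.x6v v hv, t.x7v v hv, t.vx v hv, t.vb v hv, t.vx3 v hv, t.vx4 v hv,
    t.vx5 v hv, t.vx6 v hv, t.vx7 v hv, t.vw v hv, t.vw' v hv, t.wv v hv, t.w'v v hv,
    t.xv v' hv', t.bv v' hv', t.x3v v' hv', t.x4v v' hv', t.x5v v' hv', t.x6v v' hv',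
    t.x7v v' hv', t.vx v' hv', t.vb v' hv', t.vx3 v' hv', t.vx4 v' hv', t.vx5 v' hv',
    t.vx6 v' hv', t.vx7 v' hv', t.vw v' hv', t.vw' v' hv', t.wv v' hv', t.w'v v' hv',
    t.vv v hv v hv, t.vv v hv v' hv', he, hf, ho, hlv, hkv, hlv', hkv', hs, hs', zero_smul,
    map_zero, map_add, map_sub, map_smul, smul_eq_mul, mul_one, map_neg, neg_zero, sub_self,
    t.K0w, t.K0w', t.K03, t.K04, t.K05, t.K06, t.K07] at key
  linear_combination key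

theorem f1 (v : J) (hv : v ∈ M) (v' : J) (hv' : v' ∈ M) (he : t.e = 0) (hf : t.f = 0) (ho : t.o5 = 0) (hlv : t.l5 v = 0) (hkv : t.k4 v = 0) (hlv' : t.l5 v' = 0) (hkv' : t.k4 v' = 0) (hs : t.s3 v v' = 0) :
    t.ga v * t.l6 v' = t.ga v * t.al v' * t.g + t.a0 * t.B v v' * t.g := by
  have key := congrArg (kap F x φ 0) (comm3 F t.cv.two t.cv.jordan x v t.w v')
  simp only [
    mul_add, add_mul, mul_smul_comm, smul_mul_assoc, smul_add, smul_smul, mul_zero, zero_mul,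
    smul_zero, add_zero, zero_add, sub_zero, zero_sub, t.x2, t.x3, t.x4, t.x5, t.x6, t.x7, t.x2',
    t.x3', t.x4', t.x5', t.x6', t.x7', t.b2, t.b3, t.b4, t.b5, t.b6, t.b7, t.b3', t.b4', t.b5',
    t.b6', t.b7', t.p33, t.p34, t.p43, t.q35, t.q36, t.q37, t.q44, t.q45, t.q46, t.q47, t.q53,
    t.q54, t.q55, t.q56, t.q57, t.q63, t.q64, t.q65, t.q66, t.q67, t.q73, t.q74, t.q75, t.q76,
    t.q77, t.xw, t.xw', t.bw, t.bw', t.x3w, t.x3w', t.x4w, t.x4w', t.wx, t.w'x, t.wb, t.w'b,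
    t.wx3, t.w'x3, t.wx4, t.w'x4, t.x5w, t.x5w', t.wx5, t.w'x5, t.x6w, t.x6w', t.wx6, t.w'x6,
    t.x7w, t.x7w', t.wx7, t.w'x7, t.ww, t.ww', t.w'w, t.w'w', t.xv v hv, t.bv v hv, t.x3v v hv,
    t.x4v v hv, t.x5v v hv, t.x6v v hv, t.x7v v hv, t.vx v hv, t.vb v hv, t.vx3 v hv, t.vx4 v hv,
    t.vx5 v hv, t.vx6 v hv, t.vx7 v hv, t.vw v hv, t.vw' v hv, t.wv v hv, t.w'v v hv,
    t.xv v' hv', t.bv v' hv', t.x3v v' hv', t.x4v v' hv', t.x5v v' hv', t.x6v v' hv',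
    t.x7v v' hv', t.vx v' hv', t.vb v' hv', t.vx3 v' hv', t.vx4 v' hv', t.vx5 v' hv',
    t.vx6 v' hv', t.vx7 v' hv', t.vw v' hv', t.vw' v' hv', t.wv v' hv', t.w'v v' hv',
    t.vv v hv v' hv', he, hf, ho, hlv, hkv, hlv', hkv', hs, zero_smul, map_zero, map_add,
    map_sub, map_smul, smul_eq_mul, mul_one, map_neg, neg_zero, sub_self, t.K0w, t.K0w', t.K03,
    t.K04, t.K05, t.K06, t.K07] at key
  linear_combination -key

theorem g1 (v : J) (hv : v ∈ M) (he : t.e = 0) (hf : t.f = 0) (ho : t.o5 = 0) (hlv : t.l5 v = 0) (hkv : t.k4 v = 0) (hs : t.s3 v v = 0) :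
    t.a0 * t.B v v * t.g + 2 * t.al v * t.ga v * t.g = t.B v v * t.o6 := by
  have key := congrArg (kap F x φ 0) (comm3 F t.cv.two t.cv.jordan v v x t.w)
  simp only [
    mul_add, add_mul, mul_smul_comm, smul_mul_assoc, smul_add, smul_smul, mul_zero, zero_mul,
    smul_zero, add_zero, zero_add, sub_zero, zero_sub, t.x2, t.x3, t.x4, t.x5, t.x6, t.x7, t.x2',
    t.x3', t.x4', t.x5', t.x6', t.x7', t.b2, t.b3, t.b4, t.b5, t.b6, t.b7, t.b3', t.b4', t.b5',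
    t.b6', t.b7', t.p33, t.p34, t.p43, t.q35, t.q36, t.q37, t.q44, t.q45, t.q46, t.q47, t.q53,
    t.q54, t.q55, t.q56, t.q57, t.q63, t.q64, t.q65, t.q66, t.q67, t.q73, t.q74, t.q75, t.q76,
    t.q77, t.xw, t.xw', t.bw, t.bw', t.x3w, t.x3w', t.x4w, t.x4w', t.wx, t.w'x, t.wb, t.w'b,
    t.wx3, t.w'x3, t.wx4, t.w'x4, t.x5w, t.x5w', t.wx5, t.w'x5, t.x6w, t.x6w', t.wx6, t.w'x6,
    t.x7w, t.x7w', t.wx7, t.w'x7, t.ww, t.ww', t.w'w, t.w'w', t.xv v hv, t.bv v hv, t.x3v v hv,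
    t.x4v v hv, t.x5v v hv, t.x6v v hv, t.x7v v hv, t.vx v hv, t.vb v hv, t.vx3 v hv, t.vx4 v hv,
    t.vx5 v hv, t.vx6 v hv, t.vx7 v hv, t.vw v hv, t.vw' v hv, t.wv v hv, t.w'v v hv,
    t.vv v hv v hv, he, hf, ho, hlv, hkv, hs, zero_smul, map_zero, map_add, map_sub, map_smul,
    smul_eq_mul, mul_one, map_neg, neg_zero, sub_self, t.K0w, t.K0w', t.K03, t.K04, t.K05, t.K06,
    t.K07] at key
  linear_combination key

theorem h1 (v : J) (hv : v ∈ M) (he : t.e = 0) (hf : t.f = 0) (ho : t.o5 = 0) (hlv : t.l5 v = 0) (hkv : t.k4 v = 0) (hs : t.s3 v v = 0) :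
    t.B v v * t.a0 * t.c + 2 * t.al v ^ 2 * t.o6 = 2 * t.a0 * t.al v * t.l6 v := by
  have key := congrArg (kap F x φ 1) (comm3 F t.cv.two t.cv.jordan v v x x)
  simp only [
    mul_add, add_mul, mul_smul_comm, smul_mul_assoc, smul_add, smul_smul, mul_zero, zero_mul,
    smul_zero, add_zero, zero_add, sub_zero, zero_sub, t.x2, t.x3, t.x4, t.x5, t.x6, t.x7, t.x2',
    t.x3', t.x4', t.x5', t.x6', t.x7', t.b2, t.b3, t.b4, t.b5, t.b6, t.b7, t.b3', t.b4', t.b5',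
    t.b6', t.b7', t.p33, t.p34, t.p43, t.q35, t.q36, t.q37, t.q44, t.q45, t.q46, t.q47, t.q53,
    t.q54, t.q55, t.q56, t.q57, t.q63, t.q64, t.q65, t.q66, t.q67, t.q73, t.q74, t.q75, t.q76,
    t.q77, t.xw, t.xw', t.bw, t.bw', t.x3w, t.x3w', t.x4w, t.x4w', t.wx, t.w'x, t.wb, t.w'b,
    t.wx3, t.w'x3, t.wx4, t.w'x4, t.x5w, t.x5w', t.wx5, t.w'x5, t.x6w, t.x6w', t.wx6, t.w'x6,
    t.x7w, t.x7w', t.wx7, t.w'x7, t.ww, t.ww', t.w'w, t.w'w', t.xv v hv, t.bv v hv, t.x3v v hv,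
    t.x4v v hv, t.x5v v hv, t.x6v v hv, t.x7v v hv, t.vx v hv, t.vb v hv, t.vx3 v hv, t.vx4 v hv,
    t.vx5 v hv, t.vx6 v hv, t.vx7 v hv, t.vw v hv, t.vw' v hv, t.wv v hv, t.w'v v hv,
    t.vv v hv v hv, he, hf, ho, hlv, hkv, hs, zero_smul, map_zero, map_add, map_sub, map_smul,
    smul_eq_mul, mul_one, map_neg, neg_zero, sub_self, t.K1w, t.K1w', t.K13, t.K14, t.K15, t.K16,
    t.K17] at key
  linear_combination key

end Tb

end L2
end JD
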