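import Pool.Agent.H33.JD.CurW

set_option autoImplicit false
set_option linter.unusedSectionVars false
set_option linter.unusedVariables false
set_option maxHeartbeats 1000000

/-!
# JD: class 7, three generators, curvilinear, case II: the multiplication table

`dim M ∩ J² = 2`, `dim M ∩ J³ = 1`, `M ∩ J⁴ = 0`; `M ∩ J² = ⟨w, w'⟩`, `M ∩ J³ = ⟨w'⟩`.
-/

namespace JD
namespace L2

universe u

open Module

variable {F : Type u} [Field F] {J : Type u} [NonUnitalNonAssocCommRing J] [Module F J]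
  [IsScalarTower F J J] [SMulCommClass F J J]

/-- the multiplication table -/
structure Tb (F : Type u) [Field F] {J : Type u} [NonUnitalNonAssocCommRing J] [Module F J]
    [IsScalarTower F J J] [SMulCommClass F J J] (x : J) (φ : J →ₗ[F] F)
    (M : Submodule F J) : Type u where
  cv : Cv F x 7 φ M
  /-- generator of `M ∩ J²` mod `J³` -/
  w : J
  /-- generator of `M ∩ J³` -/
  w' : J
  hw : w ∈ M
  hw2 : w ∈ jpow F J 2
  hw' : w' ∈ M
  hw3 : w' ∈ jpow F J 3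
  hwn : w ∉ jpow F J 3
  hw'0 : w' ≠ 0
  ex2 : ∀ p ∈ M, p ∈ jpow F J 2 → ∃ a b : F, p = a • w + b • w'
  ex3 : ∀ p ∈ M, p ∈ jpow F J 3 → ∃ b : F, p = b • w'
  a0 : F
  c : F
  cw : F
  o5 : F
  o6 : F
  o7 : F
  e : F
  g : F
  f : F
  al : J →ₗ[F] F
  al' : J →ₗ[F] F
  de : J →ₗ[F] F
  rho : J →ₗ[F] F
  ga : J →ₗ[F] F
  k4 : J →ₗ[F] F
  k5 : J →ₗ[F] F
  k6 : J →ₗ[F] F
  k7 : J →ₗ[F] F
  l5 : J →ₗ[F] F
  l6 : J →ₗ[F] F
  l7 : J →ₗ[F] F
  B : J →ₗ[F] J →ₗ[F] F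
  B' : J →ₗ[F] J →ₗ[F] F
  s3 : J →ₗ[F] J →ₗ[F] F
  s4 : J →ₗ[F] J →ₗ[F] F
  s5 : J →ₗ[F] J →ₗ[F] F
  s6 : J →ₗ[F] J →ₗ[F] F
  s7 : J →ₗ[F] J →ₗ[F] F
  Bsym : ∀ v v', B v v' = B v' v
  xw : x * w = a0 • w'
  xw' : x * w' = 0
  bw : (x * x) * w = (a0 * c) • xp x 6 + cw • xp x 7
  bw' : (x * x) * w' = c • xp x 7
  xv : ∀ v ∈ M, x * v = al v • w + al' v • w'
  bv : ∀ v ∈ M, (x * x) * v = de v • w' + (al v * (a0 * c)) • xp x 5
    + (al v * cw + al' v * c) • xp x 6 + rho v • xp x 7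
  vw : ∀ v ∈ M, v * w = ga v • w' + k4 v • xp x 4 + k5 v • xp x 5 + k6 v • xp x 6 + k7 v • xp x 7
  vw' : ∀ v ∈ M, v * w' = l5 v • xp x 5 + l6 v • xp x 6 + l7 v • xp x 7
  vv : ∀ v ∈ M, ∀ v' ∈ M, v * v' = B v v' • w + B' v v' • w' + s3 v v' • xp x 3
    + s4 v v' • xp x 4 + s5 v v' • xp x 5 + s6 v v' • xp x 6 + s7 v v' • xp x 7
  ww : w * w = o5 • xp x 5 + o6 • xp x 6 + o7 • xp x 7
  ww' : w * w' = e • xp x 6 + g • xp x 7
  w'w' : w' * w' = f • xp x 7

namespace Cv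

variable {x : J} {φ : J →ₗ[F] F} {M : Submodule F J} (h : Cv F x 7 φ M)
include h

theorem exC7 {s : J} (hs : s ∈ Cg F x 1) :
    s = kap F x φ 6 s • xp x 1 + kap F x φ 5 s • xp x 2 + kap F x φ 4 s • xp x 3
      + kap F x φ 3 s • xp x 4 + kap F x φ 2 s • xp x 5 + kap F x φ 1 s • xp x 6
      + kap F x φ 0 s • xp x 7 := by
  conv_lhs => rw [← h.cp_of_Cg hs, cp_apply]
  simp only [Finset.sum_range_succ, Finset.sum_range_zero, zero_add]
  norm_num
  abel

theorem exC3 {s : J} (hs : s ∈ Cg F x 3) :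
    s = kap F x φ 4 s • xp x 3 + kap F x φ 3 s • xp x 4 + kap F x φ 2 s • xp x 5
      + kap F x φ 1 s • xp x 6 + kap F x φ 0 s • xp x 7 := by
  have := h.exC7 (Cg_anti x (by omega) hs)
  rwa [h.kap_Cg (i := 6) (j := 3) (by omega) (by omega) hs,
    h.kap_Cg (i := 5) (j := 3) (by omega) (by omega) hs, zero_smul, zero_smul, zero_add,
    zero_add] at this

theorem exC4 {s : J} (hs : s ∈ Cg F x 4) :
    s = kap F x φ 3 s • xp x 4 + kap F x φ 2 s • xp x 5
      + kap F x φ 1 s • xp x 6 + kap F x φ 0 s • xp x 7 := by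
  have := h.exC3 (Cg_anti x (by omega) hs)
  rwa [h.kap_Cg (i := 4) (j := 4) (by omega) (by omega) hs, zero_smul, zero_add] at this

theorem exC5 {s : J} (hs : s ∈ Cg F x 5) :
    s = kap F x φ 2 s • xp x 5 + kap F x φ 1 s • xp x 6 + kap F x φ 0 s • xp x 7 := by
  have := h.exC4 (Cg_anti x (by omega) hs)
  rwa [h.kap_Cg (i := 3) (j := 5) (by omega) (by omega) hs, zero_smul, zero_add] at this

theorem exC6 {s : J} (hs : s ∈ Cg F x 6) :
    s = kap F x φ 1 s • xp x 6 + kap F x φ 0 s • xp x 7 := by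
  have := h.exC5 (Cg_anti x (by omega) hs)
  rwa [h.kap_Cg (i := 2) (j := 6) (by omega) (by omega) hs, zero_smul, zero_add] at this

theorem exC7' {s : J} (hs : s ∈ Cg F x 7) : s = kap F x φ 0 s • xp x 7 := by
  have := h.exC6 (Cg_anti x (by omega) hs)
  rwa [h.kap_Cg (i := 1) (j := 7) (by omega) (by omega) hs, zero_smul, zero_add] at this

theorem kapM (i : ℕ) {m : J} (hm : m ∈ M) : kap F x φ i m = 0 := (h.mem m).mp hm i

/-- a functional which is zero on `C` and on `m`, and 1 on `m'` -/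
theorem exists_fun {w w' : J} (hw : w ∈ M) (hw' : w' ∈ M) (hne : ∀ r : F, w' ≠ r • w) :
    ∃ g : J →ₗ[F] F, g w' = 1 ∧ g w = 0 ∧ ∀ s ∈ Cg F x 1, g s = 0 := by
  have hnot : w' ∉ Cg F x 1 ⊔ Submodule.span F {w} := by
    intro hmem
    obtain ⟨s, hs, q, hq, he⟩ := Submodule.mem_sup.mp hmem
    obtain ⟨r, rfl⟩ := Submodule.mem_span_singleton.mp hq
    have h1 : s ∈ M := by
      have : s = w' - r • w := by rw [← he]; abel
      rw [this]
      exact sub_mem hw' (Submodule.smul_mem _ _ hw)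
    have h3 := h.inter hs h1
    rw [h3, zero_add] at he
    exact hne r he.symm
  obtain ⟨g, hg, hg'⟩ := Submodule.exists_le_ker_of_notMem hnot
  refine ⟨(g w')⁻¹ • g, ?_, ?_, fun s hs => ?_⟩
  · rw [LinearMap.smul_apply, smul_eq_mul, inv_mul_cancel₀ hg]
  · have := hg' (Submodule.mem_sup_right (Submodule.mem_span_singleton_self w))
    rw [LinearMap.mem_ker] at this
    rw [LinearMap.smul_apply, this, smul_zero]
  · have := hg' (Submodule.mem_sup_left hs)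
    rw [LinearMap.mem_ker] at this
    rw [LinearMap.smul_apply, this, smul_zero]

theorem exists_Tb {e : J} (hcr : Crit F J 7 e)
    (h2 : finrank F (M ⊓ jpow F J 2 : Submodule F J) = 2)
    (h3 : finrank F (M ⊓ jpow F J 3 : Submodule F J) = 1)
    (h4 : M ⊓ jpow F J 4 = ⊥) : Nonempty (Tb F x φ M) := by
  have hfin := hcr.fin
  obtain ⟨w', ⟨hw', hw3⟩, hw'0, hall3⟩ := exists_one (bot_le : (⊥ : Submodule F J) ≤ M ⊓ jpow F J 3)
    (by rw [h3, finrank_bot])
  obtain ⟨w, ⟨hw, hw2⟩, hwn, hall2⟩ := exists_one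
    (inf_le_inf_left M (jpow_anti (by omega)) : M ⊓ jpow F J 3 ≤ M ⊓ jpow F J 2)
    (by rw [h2, h3])
  have hw'0 : w' ≠ 0 := fun h0 => hw'0 (by rw [h0]; exact zero_mem _)
  have hwn : w ∉ jpow F J 3 := fun h' => hwn ⟨hw, h'⟩
  have ex3 : ∀ p ∈ M, p ∈ jpow F J 3 → ∃ b : F, p = b • w' := by
    intro p hp hp3
    obtain ⟨b, q, hq, hpq⟩ := hall3 p ⟨hp, hp3⟩
    rw [Submodule.mem_bot] at hq
    exact ⟨b, by rw [hpq, hq, add_zero]⟩
  have ex2 : ∀ p ∈ M, p ∈ jpow F J 2 → ∃ a b : F, p = a • w + b • w' := by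
    intro p hp hp2
    obtain ⟨a, q, hq, hpq⟩ := hall2 p ⟨hp, hp2⟩
    obtain ⟨b, hb⟩ := ex3 q hq.1 hq.2
    exact ⟨a, b, by rw [hpq, hb]⟩
  have ex4 : ∀ p ∈ M, p ∈ jpow F J 4 → p = 0 := by
    intro p hp hp4
    have : p ∈ M ⊓ jpow F J 4 := ⟨hp, hp4⟩
    rwa [h4, Submodule.mem_bot] at this
  obtain ⟨f1, f1w, f1w', f1C⟩ := h.exists_fun (w := w') (w' := w) hw' hw (by
    intro r hr
    exact hwn (by rw [hr]; exact Submodule.smul_mem _ _ hw3))
  obtain ⟨f2, f2w', f2w, f2C⟩ := h.exists_fun (w := w) (w' := w') hw hw' (by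
    intro r hr
    rcases eq_or_ne r 0 with rfl | hr0
    · exact hw'0 (by rw [hr, zero_smul])
    · apply hwn
      have : w = r⁻¹ • w' := by rw [hr, smul_smul, inv_mul_cancel₀ hr0, one_smul]
      rw [this]
      exact Submodule.smul_mem _ _ hw3)
  have e2 : ∀ p ∈ M, p ∈ jpow F J 2 → p = f1 p • w + f2 p • w' := by
    intro p hp hp2
    obtain ⟨a, b, rfl⟩ := ex2 p hp hp2
    simp only [map_add, map_smul, f1w, f1w', f2w, f2w', smul_eq_mul, mul_one, mul_zero, add_zero,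
      zero_add]
  have e3 : ∀ p ∈ M, p ∈ jpow F J 3 → p = f2 p • w' := by
    intro p hp hp3
    obtain ⟨b, rfl⟩ := ex3 p hp hp3
    simp only [map_smul, f2w', smul_eq_mul, mul_one]
  -- products with the `C`-part in `C_(≥ k)`
  have D2 : ∀ p, ∀ s ∈ Cg F x 1, ∀ m ∈ M, m ∈ jpow F J 2 → p = s + m →
      f1 p = f1 m ∧ f2 p = f2 m ∧ (∀ i, kap F x φ i p = kap F x φ i s) ∧ m = f1 m • w + f2 m • w' := by
    rintro p s hs m hm hm2 rfl
    refine ⟨by rw [map_add, f1C s hs, zero_add], by rw [map_add, f2C s hs, zero_add], fun i => ?_,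
      e2 m hm hm2⟩
    rw [map_add, h.kapM i hm, add_zero]
  have xM : ∀ i j, ∀ m ∈ M, m ∈ jpow F J j → ∀ a ∈ jpow F J i, 1 ≤ i → 1 ≤ j → 4 ≤ i + j →
      a * m ∈ Cg F x (i + j + 1) := by
    intro i j m hm hmj a ha hi hj hij
    obtain ⟨s, hs, m', hm', hm'j, he⟩ := h.dec_ord hi hj ha hm hmj
    rw [ex4 m' hm' (jpow_anti hij hm'j), add_zero] at he
    rw [he]
    exact hs
  -- table
  have xw : x * w = f2 (x * w) • w' := e3 _ (h.M_mul hw) (lmul_mem (by omega) x hw2)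
  have xw' : x * w' = 0 := ex4 _ (h.M_mul hw') (lmul_mem (by omega) x hw3)
  have m2 : x * x ∈ jpow F J 2 := mul_mem_two x x
  have bw' : (x * x) * w' = kap F x φ 0 ((x * x) * w') • xp x 7 := by
    have h5 := h.exC6 (xM 2 3 w' hw' hw3 (x * x) m2 (by omega) (by omega) (by omega))
    have h6 : kap F x φ 1 ((x * x) * w') = 0 := by
      rw [show 1 = 0 + 1 from rfl, kap_succ, ← comm1 F h.two h.jordan, xw', mul_zero, map_zero]
    rwa [h6, zero_smul, zero_add] at h5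
  have bw : (x * x) * w = (f2 (x * w) * kap F x φ 0 ((x * x) * w')) • xp x 6
      + kap F x φ 0 ((x * x) * w) • xp x 7 := by
    have h5 := h.exC5 (xM 2 2 w hw hw2 (x * x) m2 (by omega) (by omega) (by omega))
    have h6 : kap F x φ 1 ((x * x) * w) = f2 (x * w) * kap F x φ 0 ((x * x) * w') := by
      rw [show 1 = 0 + 1 from rfl, kap_succ, ← comm1 F h.two h.jordan, xw, mul_smul_comm, map_smul,
        smul_eq_mul, ← xw]
    have h7 : kap F x φ 2 ((x * x) * w) = 0 := by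
      rw [show 2 = 1 + 1 from rfl, kap_succ, ← comm1 F h.two h.jordan, xw, mul_smul_comm, bw',
        map_smul, map_smul, h.kap_xp' _ _ (by omega), if_neg (by omega), smul_zero, smul_zero]
    rwa [h6, h7, zero_smul, zero_add] at h5
  have xv : ∀ v ∈ M, x * v = f1 (x * v) • w + f2 (x * v) • w' := fun v hv =>
    e2 _ (h.M_mul hv) (mul_mem_two x v)
  have bv : ∀ v ∈ M, (x * x) * v = f2 ((x * x) * v) • w'
      + (f1 (x * v) * (f2 (x * w) * kap F x φ 0 ((x * x) * w'))) • xp x 5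
      + (f1 (x * v) * kap F x φ 0 ((x * x) * w) + f2 (x * v) * kap F x φ 0 ((x * x) * w')) • xp x 6
      + kap F x φ 0 ((x * x) * v) • xp x 7 := by
    intro v hv
    obtain ⟨s, hs, m, hm, hm3, he⟩ := h.dec_ord (i := 2) (j := 1) (by omega) (by omega) m2 hv
      (mem_one v)
    obtain ⟨d1, d2, dk, dm⟩ := D2 _ s (Cg_anti x (by omega) hs) m hm (jpow_anti (by omega) hm3) he
    have h5 := h.exC4 hs
    have hx : x * ((x * x) * v) = (f1 (x * v) * (f2 (x * w) * kap F x φ 0 ((x * x) * w'))) • xp x 6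
        + (f1 (x * v) * kap F x φ 0 ((x * x) * w) + f2 (x * v) * kap F x φ 0 ((x * x) * w'))
          • xp x 7 := by
      rw [← comm1 F h.two h.jordan]
      have e1 := congrArg (fun t => f1 (x * v) • t) bw
      have e3 := congrArg (fun t => f2 (x * v) • t) bw'
      conv_lhs => rw [xv v hv, mul_add, mul_smul_comm, mul_smul_comm, e1, e3]
      module
    have q1 : kap F x φ 1 s = f1 (x * v) * kap F x φ 0 ((x * x) * w)
        + f2 (x * v) * kap F x φ 0 ((x * x) * w') := by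
      rw [← dk, show 1 = 0 + 1 from rfl, kap_succ, hx, map_add, map_smul, map_smul,
        h.kap_xp' _ _ (by omega), h.kap_xp' _ _ (by omega), if_neg (by omega), if_pos (by omega)]
      simp
    have q2 : kap F x φ 2 s = f1 (x * v) * (f2 (x * w) * kap F x φ 0 ((x * x) * w')) := by
      rw [← dk, show 2 = 1 + 1 from rfl, kap_succ, hx, map_add, map_smul, map_smul,
        h.kap_xp' _ _ (by omega), h.kap_xp' _ _ (by omega), if_pos (by omega), if_neg (by omega)]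
      simp
    have q3 : kap F x φ 3 s = 0 := by
      rw [← dk, show 3 = 2 + 1 from rfl, kap_succ, hx, map_add, map_smul, map_smul,
        h.kap_xp' _ _ (by omega), h.kap_xp' _ _ (by omega), if_neg (by omega), if_neg (by omega)]
      simp
    have q0 := dk 0
    rw [q1, q2, q3, ← q0, zero_smul, zero_add] at h5
    conv_lhs => rw [he, h5, e3 m hm hm3]
    rw [d2]
    abel
  have vw : ∀ v ∈ M, v * w = f2 (v * w) • w' + kap F x φ 3 (v * w) • xp x 4
      + kap F x φ 2 (v * w) • xp x 5 + kap F x φ 1 (v * w) • xp x 6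
      + kap F x φ 0 (v * w) • xp x 7 := by
    intro v hv
    obtain ⟨s, hs, m, hm, hm3, he⟩ := h.dec_ord (i := 1) (j := 2) (by omega) (by omega) (mem_one v)
      hw hw2
    obtain ⟨d1, d2, dk, dm⟩ := D2 _ s (Cg_anti x (by omega) hs) m hm (jpow_anti (by omega) hm3) he
    have h5 := h.exC4 hs
    rw [dk, dk, dk, dk, d2]
    conv_lhs => rw [he, h5, e3 m hm hm3]
    abel
  have vw' : ∀ v ∈ M, v * w' = kap F x φ 2 (v * w') • xp x 5 + kap F x φ 1 (v * w') • xp x 6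
      + kap F x φ 0 (v * w') • xp x 7 := fun v hv =>
    h.exC5 (xM 1 3 w' hw' hw3 v (mem_one v) (by omega) (by omega) (by omega))
  have vv : ∀ v ∈ M, ∀ v' ∈ M, v * v' = f1 (v * v') • w + f2 (v * v') • w'
      + kap F x φ 4 (v * v') • xp x 3 + kap F x φ 3 (v * v') • xp x 4
      + kap F x φ 2 (v * v') • xp x 5 + kap F x φ 1 (v * v') • xp x 6
      + kap F x φ 0 (v * v') • xp x 7 := by
    intro v hv v' hv'
    obtain ⟨s, hs, m, hm, hm2, he⟩ := h.dec_ord (i := 1) (j := 1) (by omega) (by omega) (mem_one v)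
      hv' (mem_one v')
    obtain ⟨d1, d2, dk, dm⟩ := D2 _ s (Cg_anti x (by omega) hs) m hm hm2 he
    have h5 := h.exC3 hs
    rw [dk, dk, dk, dk, dk, d1, d2]
    conv_lhs => rw [he, h5, dm]
    abel
  have ww : w * w = kap F x φ 2 (w * w) • xp x 5 + kap F x φ 1 (w * w) • xp x 6
      + kap F x φ 0 (w * w) • xp x 7 :=
    h.exC5 (xM 2 2 w hw hw2 w hw2 (by omega) (by omega) (by omega))
  have ww' : w * w' = kap F x φ 1 (w * w') • xp x 6 + kap F x φ 0 (w * w') • xp x 7 :=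
    h.exC6 (xM 2 3 w' hw' hw3 w hw2 (by omega) (by omega) (by omega))
  have w'w' : w' * w' = kap F x φ 0 (w' * w') • xp x 7 :=
    h.exC7' (xM 3 3 w' hw' hw3 w' hw3 (by omega) (by omega) (by omega))
  exact ⟨{
    cv := h, w := w, w' := w', hw := hw, hw2 := hw2, hw' := hw', hw3 := hw3, hwn := hwn,
    hw'0 := hw'0, ex2 := ex2, ex3 := ex3
    a0 := f2 (x * w), c := kap F x φ 0 ((x * x) * w'), cw := kap F x φ 0 ((x * x) * w)
    o5 := kap F x φ 2 (w * w), o6 := kap F x φ 1 (w * w), o7 := kap F x φ 0 (w * w)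
    e := kap F x φ 1 (w * w'), g := kap F x φ 0 (w * w'), f := kap F x φ 0 (w' * w')
    al := f1 ∘ₗ LinearMap.mulLeft F x, al' := f2 ∘ₗ LinearMap.mulLeft F x
    de := f2 ∘ₗ LinearMap.mulLeft F (x * x), rho := kap F x φ 0 ∘ₗ LinearMap.mulLeft F (x * x)
    ga := f2 ∘ₗ LinearMap.mulRight F w, k4 := kap F x φ 3 ∘ₗ LinearMap.mulRight F w
    k5 := kap F x φ 2 ∘ₗ LinearMap.mulRight F w, k6 := kap F x φ 1 ∘ₗ LinearMap.mulRight F w
    k7 := kap F x φ 0 ∘ₗ LinearMap.mulRight F w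
    l5 := kap F x φ 2 ∘ₗ LinearMap.mulRight F w', l6 := kap F x φ 1 ∘ₗ LinearMap.mulRight F w'
    l7 := kap F x φ 0 ∘ₗ LinearMap.mulRight F w'
    B := (LinearMap.mul F J).compr₂ f1, B' := (LinearMap.mul F J).compr₂ f2
    s3 := (LinearMap.mul F J).compr₂ (kap F x φ 4), s4 := (LinearMap.mul F J).compr₂ (kap F x φ 3)
    s5 := (LinearMap.mul F J).compr₂ (kap F x φ 2), s6 := (LinearMap.mul F J).compr₂ (kap F x φ 1)
    s7 := (LinearMap.mul F J).compr₂ (kap F x φ 0)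
    Bsym := fun v v' => by
      simp only [LinearMap.compr₂_apply, LinearMap.mul_apply']
      rw [mul_comm]
    xw := xw, xw' := xw', bw := bw, bw' := bw', xv := xv, bv := bv, vw := vw, vw' := vw', vv := vv,
    ww := ww, ww' := ww', w'w' := w'w' }⟩

end Cv

end L2
end JD
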