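import Pool.Agent.H78.C7.Tab

set_option autoImplicit false
set_option linter.unusedSectionVars false
set_option linter.unusedVariables false
set_option linter.unusedSimpArgs false
set_option maxHeartbeats 1000000

/-!
# JD: class 7, case II: products with powers of `x`
-/

namespace JD
namespace L2

universe u

open Module

variable {F : Type u} [Field F] {J : Type u} [NonUnitalNonAssocCommRing J] [Module F J]
  [IsScalarTower F J J] [SMulCommClass F J J]

namespace Tb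

variable {x : J} {φ : J →ₗ[F] F} {M : Submodule F J} (t : Tb F x φ M)
include t

-- powers
theorem x2 : x * (x * x) = xp x 3 := rfl
theorem x3 : x * xp x 3 = xp x 4 := rfl
theorem x4 : x * xp x 4 = xp x 5 := rfl
theorem x5 : x * xp x 5 = xp x 6 := rfl
theorem x6 : x * xp x 6 = xp x 7 := rfl
theorem x7 : x * xp x 7 = 0 := by
  have : x * xp x 7 = xp x 8 := rfl
  rw [this, t.cv.xp_zero' (by omega)]
theorem x2' : (x * x) * x = xp x 3 := mul_comm _ _
theorem x3' : xp x 3 * x = xp x 4 := mul_comm _ _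
theorem x4' : xp x 4 * x = xp x 5 := mul_comm _ _
theorem x5' : xp x 5 * x = xp x 6 := mul_comm _ _
theorem x6' : xp x 6 * x = xp x 7 := mul_comm _ _
theorem x7' : xp x 7 * x = 0 := by rw [mul_comm, t.x7]

theorem pz {i j : ℕ} (hi : 1 ≤ i) (hj : 1 ≤ j) (h : 8 ≤ i + j) : xp x i * xp x j = 0 := by
  rw [xp_mul F t.cv.two t.cv.jordan x hi hj, t.cv.xp_zero' (by omega)]

theorem b2 : (x * x) * (x * x) = xp x 4 := bb_xp F t.cv.two t.cv.jordan x
theorem b3 : (x * x) * xp x 3 = xp x 5 := b_xp F t.cv.two t.cv.jordan x (by omega) rfl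
theorem b4 : (x * x) * xp x 4 = xp x 6 := b_xp F t.cv.two t.cv.jordan x (by omega) rfl
theorem b5 : (x * x) * xp x 5 = xp x 7 := b_xp F t.cv.two t.cv.jordan x (by omega) rfl
theorem b6 : (x * x) * xp x 6 = 0 := by
  rw [b_xp F t.cv.two t.cv.jordan x (n := 6) (by omega) rfl, t.cv.xp_zero' (by omega)]
theorem b7 : (x * x) * xp x 7 = 0 := by
  rw [b_xp F t.cv.two t.cv.jordan x (n := 7) (by omega) rfl, t.cv.xp_zero' (by omega)]
theorem b3' : xp x 3 * (x * x) = xp x 5 := by rw [mul_comm, t.b3]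
theorem b4' : xp x 4 * (x * x) = xp x 6 := by rw [mul_comm, t.b4]
theorem b5' : xp x 5 * (x * x) = xp x 7 := by rw [mul_comm, t.b5]
theorem b6' : xp x 6 * (x * x) = 0 := by rw [mul_comm, t.b6]
theorem b7' : xp x 7 * (x * x) = 0 := by rw [mul_comm, t.b7]

theorem p33 : xp x 3 * xp x 3 = xp x 6 := xp_mul F t.cv.two t.cv.jordan x (by omega) (by omega)
theorem p34 : xp x 3 * xp x 4 = xp x 7 := xp_mul F t.cv.two t.cv.jordan x (by omega) (by omega)
theorem p43 : xp x 4 * xp x 3 = xp x 7 := xp_mul F t.cv.two t.cv.jordan x (by omega) (by omega)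

-- powers times `w`, `w'`
theorem x3w : xp x 3 * t.w = (3 * (t.a0 * t.c)) • xp x 7 := by
  rw [x3m F t.cv.two t.cv.jordan, t.xw]
  simp only [mul_smul_comm, t.bw', t.xw', smul_zero, sub_zero, smul_smul, mul_zero]

theorem x3w' : xp x 3 * t.w' = 0 := by
  rw [x3m F t.cv.two t.cv.jordan, t.xw']
  simp

theorem x4w : xp x 4 * t.w = 0 := by
  rw [x4m F t.cv.two t.cv.jordan, t.xw, t.bw]
  simp only [mul_smul_comm, t.bw', t.xw', smul_zero, sub_zero, smul_smul, mul_zero, mul_add, t.b6,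
    t.b7, add_zero]

theorem x4w' : xp x 4 * t.w' = 0 := by
  rw [x4m F t.cv.two t.cv.jordan, t.xw', t.bw']
  simp only [mul_smul_comm, t.b7, smul_zero, mul_zero, sub_zero, add_zero]

theorem ex4 {p : J} (hp : p ∈ M) (hp4 : p ∈ jpow F J 4) (h4 : M ⊓ jpow F J 4 = ⊥) : p = 0 := by
  have : p ∈ M ⊓ jpow F J 4 := ⟨hp, hp4⟩
  rwa [h4, Submodule.mem_bot] at this

theorem x3v (v : J) (hv : v ∈ M) : xp x 3 * v = (3 * (t.al v * (t.a0 * t.c))) • xp x 6
    + (3 * (t.al v * t.cw + t.al' v * t.c)) • xp x 7 := by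
  rw [x3m F t.cv.two t.cv.jordan, t.xv v hv]
  simp only [mul_smul_comm, mul_add, t.xw, t.bw, t.bw', t.xw', smul_zero, sub_zero, add_zero]
  module

theorem x4v (v : J) (hv : v ∈ M) :
    xp x 4 * v = (t.de v * t.c + 5 * (t.al v * (t.a0 * t.c))) • xp x 7 := by
  rw [x4m F t.cv.two t.cv.jordan, t.xv v hv, t.bv v hv]
  simp only [mul_smul_comm, mul_add, t.xw, t.bw, t.bw', t.xw', t.b5, t.b6, t.b7, smul_zero,
    sub_zero, add_zero, mul_zero, zero_add, smul_smul]
  module

theorem x5v (v : J) (hv : v ∈ M) : xp x 5 * v = 0 := by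
  have := xp_rec F t.cv.two t.cv.jordan x (i := 3) (by omega) v
  rw [show 3 + 2 = 5 from rfl, show 3 + 1 = 4 from rfl, t.x3v v hv, t.xv v hv] at this
  rw [this]
  simp only [mul_smul_comm, mul_add, t.xw, t.bw, t.bw', t.xw', t.x4w, t.x4w', t.b6, t.b7, t.x6, t.x7,
    t.x3w', smul_zero, sub_zero, add_zero]

theorem x6v (v : J) (hv : v ∈ M) : xp x 6 * v = 0 := by
  have := xp_rec F t.cv.two t.cv.jordan x (i := 4) (by omega) v
  rw [show 4 + 2 = 6 from rfl, show 4 + 1 = 5 from rfl, t.x4v v hv, t.xv v hv] at this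
  rw [this]
  simp only [mul_smul_comm, mul_add, t.xw, t.xw', t.x5v _ t.hw, t.x5v _ t.hw', t.b7, t.x7,
    t.x4w', smul_zero, sub_zero, add_zero, mul_zero]

theorem x7v (v : J) (hv : v ∈ M) : xp x 7 * v = 0 := by
  have := xp_rec F t.cv.two t.cv.jordan x (i := 5) (by omega) v
  rw [show 5 + 2 = 7 from rfl, show 5 + 1 = 6 from rfl, t.x5v v hv, t.xv v hv] at this
  rw [this]
  simp only [mul_smul_comm, mul_add, t.xw, t.xw', t.x6v _ t.hw, t.x6v _ t.hw', t.x5v _ t.hw,
    t.x5v _ t.hw', smul_zero, sub_zero, add_zero, mul_zero]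

end Tb

end L2
end JD
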